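import Pool.Agent.Work.MP_8f87b2_mid.InAE

/-!
# MP_8f87b2_co: what is around the first maximum of a B-window

`BW.FMV c R a b`: `R = a 1 b` at the first maximum: `a` ends with `1^(c-1)`, `b` starts with `0^(c+2)` or
`0^(c+1) 1^(c+1)` or `0^c 1^c` (NOT `0^(c+1) 1^c 0`, the marker directly after the top peak).
`BW.hcp n t`: every component of `t` has height at least `n`.
-/

set_option autoImplicit false

namespace Pool.OddHC

open Finset Equiv BinaryTree Pool.Agent.Work.MP_8f87b2_co

variable {k : ℕ} {F F' : Set (Cyc k)} {g g' : DG k}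

/-- every component of `t` has height at least `n` -/
def BW.hcp (n : ℕ) : BinaryTree Unit → Prop
  | .nil => True
  | .node _ A C => n ≤ ht A + 1 ∧ BW.hcp n C

theorem BW.hcp_node {n : ℕ} {A C : BinaryTree Unit} : BW.hcp n (A △ C) ↔ n ≤ ht A + 1 ∧ BW.hcp n C := Iff.rfl

theorem BW.hcp_app {n : ℕ} {P Q : BinaryTree Unit} : BW.hcp n (app P Q) ↔ BW.hcp n P ∧ BW.hcp n Q := by
  induction P with
  | nil => exact ⟨fun h => ⟨trivial, h⟩, fun h => h.2⟩
  | node _ A C _ ih =>
    change BW.hcp n (A △ app C Q) ↔ BW.hcp n (A △ C) ∧ BW.hcp n Q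
    rw [BW.hcp_node, BW.hcp_node, ih, and_assoc]

namespace BW

open H1

/-- what is around the first maximum of `R` -/
structure FMV (c : ℕ) (R : BinaryTree Unit) (a b : List Bool) : Prop where
  fm : FM R a b
  up : ∃ a', a = a' ++ List.replicate (c - 1) true
  dn : Aft' (c + 1) b ∨ ∃ r, b = List.replicate c false ++ (List.replicate c true ++ r)

theorem FMV.of {c : ℕ} {R : BinaryTree Unit} {a b : List Bool} (h : FMR (c + 1) R a b) : FMV c R a b := by
  refine ⟨h.fm, ?_, Or.inl h.dn⟩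
  obtain ⟨a', h1⟩ := h.up
  rcases Nat.eq_zero_or_pos c with rfl | hc
  · exact ⟨a, by simp⟩
  · obtain ⟨n, rfl⟩ : ∃ n, c = n + 1 := ⟨c - 1, by omega⟩
    refine ⟨a' ++ [true], ?_⟩
    rw [h1]
    simp [List.replicate_succ]

theorem FMV.app_left {c : ℕ} {P t : BinaryTree Unit} {a b : List Bool} (h : FMV c t a b)
    (hP : Tsq.ht P < Tsq.ht t) : FMV c (app P t) (wd P ++ a) b := by
  obtain ⟨a', h1⟩ := h.up
  exact ⟨h.fm.app_left hP, ⟨wd P ++ a', by rw [h1]; simp⟩, h.dn⟩

theorem FMV.dn_app {c : ℕ} {b : List Bool}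
    (h : Aft' (c + 1) b ∨ ∃ r, b = List.replicate c false ++ (List.replicate c true ++ r)) (l : List Bool) :
    Aft' (c + 1) (b ++ l) ∨ ∃ r, b ++ l = List.replicate c false ++ (List.replicate c true ++ r) := by
  rcases h with h | ⟨r, rfl⟩
  · exact Or.inl (h.append l)
  · exact Or.inr ⟨r ++ l, by simp⟩

theorem FMV.app_right {c : ℕ} {t Z : BinaryTree Unit} {a b : List Bool} (h : FMV c t a b)
    (hZ : Tsq.ht Z ≤ Tsq.ht t) : FMV c (app t Z) a (b ++ wd Z) :=
  ⟨h.fm.app_right hZ, h.up, FMV.dn_app h.dn _⟩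

theorem FMV.node {c : ℕ} {A Z : BinaryTree Unit} {a b : List Bool} (h : FMV c A a b)
    (hZ : Tsq.ht Z ≤ Tsq.ht A + 1) : FMV c (A △ Z) (true :: a) (b ++ false :: wd Z) := by
  obtain ⟨a', h1⟩ := h.up
  exact ⟨h.fm.node hZ, ⟨true :: a', by rw [h1]; simp⟩, FMV.dn_app h.dn _⟩

/-- the linked words of a window -/
theorem FMV_W {c q : ℕ} {R B S : BinaryTree Unit} {a b : List Bool} (h : FMV c R a b)
    (hq : q + 3 ≤ Tsq.ht R) : ∀ i ∈ [0, 1, 3, 6, 8, 9],
    ∃ a b, FMV c (W R (ch (q + 1)) B S i) a b := by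
  intro i hi
  have hn : Tsq.ht (.nil : BinaryTree Unit) = 0 := rfl
  have hc : ∀ n, Tsq.ht (ch n) = n := fun n => by rw [H1.ht_eq, ch_ht]
  simp only [List.mem_cons, List.not_mem_nil, or_false] at hi
  rcases hi with rfl | rfl | rfl | rfl | rfl | rfl
  · exact ⟨_, _, h.app_right (Z := ch (q + 3)) (by rw [hc]; exact hq)⟩
  · exact ⟨_, _, h.app_right (Z := .nil △ app (ch (q + 1)) (.nil △ .nil)) (by
      rw [Tsq.ht_node, Tsq.ht_app, Tsq.ht_node, hc, hn]; omega)⟩
  · exact ⟨_, _, (h.app_right (Z := .nil △ ch (q + 1)) (by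
      rw [Tsq.ht_node, hc, hn]; omega)).node (Z := .nil) (by rw [hn]; omega)⟩
  · exact ⟨_, _, h.node (Z := ch (q + 2)) (by rw [hc]; omega)⟩
  · have k := (h.node (Z := .nil) (by rw [hn]; omega)).app_left
      (P := app (ch (q + 1)) (.nil △ .nil)) (by
        rw [Tsq.ht_node, Tsq.ht_app, Tsq.ht_node, hc, hn]; omega)
    have e : W R (ch (q + 1)) B S 8 = app (app (ch (q + 1)) (.nil △ .nil)) (R △ .nil) := by
      rw [app_assoc]; rfl
    rw [e]
    exact ⟨_, _, k⟩
  · exact ⟨_, _, (h.node (Z := .nil) (by rw [hn]; omega)).node (Z := ch (q + 1)) (by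
      rw [Tsq.ht_node, hc, hn]; omega)⟩

/-- **inner words against E-triples with the E-rule** -/
theorem FMV.inner_E {x : X k} {a b : List Bool} (h : FMV 3 x.1 a b) (hk : 4 < k)
    (hx : 4 ≤ OddHC.ht x.1) {r : BinaryTree Unit} {e : List ℕ} (he : e.length = 2 * r.numNodes + 1)
    (hL : Low r) (h2 : 1 ≤ (cont x.1).count 2 ∨ 1 ≤ (cont x.1).count 3) :
    (TT x).1 ≠ ins r e △ .nil ∧ (TT x).1 ≠ app (ins r e) (.nil △ .nil) ∧
      (TT x).1 ≠ .nil △ ins r e := by
  have hw := h.fm.wdT
  obtain ⟨a', ha⟩ := h.up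
  have h4 : wd (TT x).1 = (b.map not ++ false :: a'.map not) ++ List.replicate (3 - 1) false := by
    rw [hw, ha]; simp
  rcases h.dn with hd | ⟨r0, hd⟩
  · have h3 : Sta 4 (wd (TT x).1) := by
      rw [hw]
      rcases hd with ⟨r1, h5⟩ | ⟨r1, h5⟩
      · left
        exact ⟨r1.map not ++ false :: a.map not, by rw [h5]; simp⟩
      · right
        exact ⟨r1.map not ++ false :: a.map not, by rw [h5]; simp⟩
    refine ⟨?_, inner_last (le_refl 3) h4, inner_first (by norm_num) h3⟩
    intro e1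
    obtain ⟨l1, l2⟩ := low_fh he hL
    have e2 := cont_TT x
    rw [e1, cont_node, cont_nil, add_zero] at e2
    have k1 := inner_one (by norm_num) h3 (by rw [X_num]; exact hk) e1
    generalize ins r e = Y at *
    have e3 : (cont Y).sup + 1 = OddHC.ht x.1 := by
      have hY : cont Y ≠ 0 := by
        intro h0
        have : Y = .nil := cont_eq_zero.1 h0
        subst this
        have h5 : fh (.nil : BinaryTree Unit) = 0 := rfl
        omega
      rw [OddHC.ht_eq x.1, ← e2, sup_raise]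
    have e4 : (raise (cont Y)).count 2 = (cont Y).count 2 := count_two_raise (by omega)
    have e5 := count_three_raise (M := cont Y) (by omega)
    rw [← e2] at h2
    by_cases h6 : 1 ≤ (cont Y).count 2
    · have := l1 h6
      omega
    · rcases h2 with h2 | h2
      · omega
      · have := l2 (by omega) (by omega)
        omega
  · have h3 : wd (TT x).1 = wd (ch 3) ++ (r0.map not ++ false :: a.map not) := by
      rw [hw, hd, wd_ch]; simp [List.replicate]
    refine ⟨?_, inner_last (le_refl 3) h4, ?_⟩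
    · intro e1
      rw [e1] at h3
      obtain ⟨z, hz, -⟩ := prefix_tree h3
      rw [ch_succ] at hz
      obtain ⟨h5, h6⟩ := node_inj (B' := app .nil z) hz
      have h7 := X_num (TT x)
      rw [e1, h5] at h7
      have h8 : (BinaryTree.node () (ch 2) (.nil : BinaryTree Unit)).numNodes = 3 := rfl
      change (BinaryTree.node () (ch 2) (.nil : BinaryTree Unit)).numNodes = k at h7
      omega
    · intro e1
      rw [e1, wd_node, wd_ch] at h3
      simp [wd, List.replicate] at h3

end BW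

end Pool.OddHC
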