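import Pool.Agent.Work.MP_8f87b2_h69w.TyV
import Pool.Agent.Work.MP_8f87b2_h69w.FMV

/-!
# MP_8f87b2_co: TYPE Bw = the right window `z = R[q + 3]` of a T-cycle without part 1 with MARKERS `< q + 3` inside of `R`

`NodeBw k c q R B S`: one marker `[c]`, `2 ≤ c < q + 3`, `c` exactly once in `R`, all other parts of `R` at least `q + 3`,
the marker is not a component of `R`, and not a component of `S` except for `R = ([c][c])[c+1]^m`, `S = [c+1][c]`, `q + 2 = c`.
`TyBw F g`.
-/

set_option autoImplicit false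

namespace Pool.OddHC

open Finset Equiv BinaryTree Pool.Agent.Work.MP_8f87b2_co

variable {k : ℕ} {F F' : Set (Cyc k)} {g g' : DG k}

/-- the data of a B-window: `c` is the unique smallest part of `R`, all other parts are at least `q + 3 > c` -/
structure NodeBw (k c q : ℕ) (R B S : BinaryTree Unit) : Prop where
  sq : Tsq.sq R = (S, B)
  c2 : 2 ≤ c
  lt : c < q + 3
  one : (cont R).count c = 1
  part : ∀ x ∈ cont R, x = c ∨ q + 3 ≤ x
  bare : ∀ x ∈ cont B, q + 3 ≤ x
  top : q + 3 ≤ ht R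
  size : R.numNodes + q + 3 = k
  /-- every component of `R` has height at least `q + 3` (the marker is not a component) -/
  hcR : BW.hcp (q + 3) R
  /-- every component of `S` has height at least `q + 3`, exception `R = ([c][c])[c+1]^m`, `S = [c+1][c]` -/
  hcS : BW.hcp (q + 3) S ∨ (q + 2 = c ∧ R = (H1.ch (c - 1) △ H1.ch c) △ B ∧ S = H1.ch c △ H1.ch c)
  /-- the marker is not directly after the first top peak -/
  fm : ∃ u v, BW.FMV c R u v
  /-- the marker is inside of the first component of `R` -/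
  md : ∃ A D, R = A △ D ∧ c ∉ cont D

namespace NodeBw

variable {c q : ℕ} {R B S : BinaryTree Unit}

theorem toV (h : NodeBw k c q R B S) : NodeV k q R B S where
  sq := h.sq
  two := by
    intro x hx
    have := h.c2
    have := h.lt
    rcases h.part x hx with h1 | h1 <;> omega
  bare := h.bare
  top := h.top
  size := h.size

theorem dat (h : NodeBw k c q R B S) : H1.Dat q R B S := ⟨h.sq, h.top, h.bare⟩

theorem no_ch {n c : ℕ} {P Q : BinaryTree Unit} (hc : 1 ≤ c) (hn : c < n) (h : BW.hcp n (app P (app (H1.ch c) Q))) :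
    False := by
  obtain ⟨n, rfl⟩ : ∃ m, c = m + 1 := ⟨c - 1, by omega⟩
  rw [BW.hcp_app, BW.hcp_app, H1.ch_succ, BW.hcp_node, H1.ch_ht] at h
  omega

/-- `R` does not start with the marker -/
theorem st (h : NodeBw k c q R B S) (Y : BinaryTree Unit) : R ≠ app (H1.ch c) Y := by
  rintro rfl
  exact no_ch (P := .nil) (by have := h.c2; omega) h.lt h.hcR

/-- `R` does not end with the marker -/
theorem stR (h : NodeBw k c q R B S) (Y : BinaryTree Unit) : R ≠ app Y (H1.ch c) := by
  rintro rfl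
  refine no_ch (P := Y) (Q := .nil) (by have := h.c2; omega) h.lt ?_
  rw [H1.app_nil]
  exact h.hcR

/-- `S` does not end with the marker -/
theorem en (h : NodeBw k c q R B S) (hS : BW.hcp (q + 3) S) (Y : BinaryTree Unit) : S ≠ app Y (H1.ch c) := by
  rintro rfl
  refine no_ch (P := Y) (Q := .nil) (by have := h.c2; omega) h.lt ?_
  rw [H1.app_nil]
  exact hS

theorem eq (h : NodeBw k c q R B S) : cont B + cont S = cont R := h.dat.cont

theorem cB (h : NodeBw k c q R B S) : (cont B).count c = 0 := by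
  rw [Multiset.count_eq_zero]
  intro h1
  have := h.bare c h1
  have := h.lt
  omega

theorem cS (h : NodeBw k c q R B S) : (cont S).count c = 1 := by
  have h1 := congrArg (Multiset.count c) h.eq
  rw [Multiset.count_add, h.cB, h.one] at h1
  omega

theorem memR (h : NodeBw k c q R B S) : c ∈ cont R := by
  rw [← Multiset.one_le_count_iff_mem, h.one]

theorem memS (h : NodeBw k c q R B S) : c ∈ cont S := by
  rw [← Multiset.one_le_count_iff_mem, h.cS]

theorem partS (h : NodeBw k c q R B S) : ∀ x ∈ cont S, x = c ∨ q + 3 ≤ x := by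
  intro x hx
  apply h.part
  rw [← h.eq]
  exact Multiset.mem_add.2 (Or.inr hx)

theorem hvR (h : NodeBw k c q R B S) (c3 : 3 ≤ c) : H1.hv R := by
  apply H1.hv_of_cont
  intro x hx
  rcases h.part x hx with h1 | h1 <;> omega

theorem hvS (h : NodeBw k c q R B S) (c3 : 3 ≤ c) : H1.hv S := by
  apply H1.hv_of_cont
  intro x hx
  rcases h.partS x hx with h1 | h1 <;> omega

theorem hvB (h : NodeBw k c q R B S) : H1.hv B := by
  apply H1.hv_of_cont
  intro x hx
  have := h.bare x hx
  omega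

theorem word (h : NodeBw k c q R B S) (w0 : X k) {i : ℕ} (hi : i < 20) :
    (H1.wX R B S q w0 i).1 = H1.W R (H1.ch (q + 1)) B S i := H1.wX_eq h.dat h.size w0 hi

end NodeBw

/-- TYPE Bw: the right window at `[q + 3]` of a T-cycle with one marker `[c]`, `2 ≤ c < q + 3`, inside of `R` -/
def TyBw (F : Set (Cyc k)) (g : DG k) : Prop :=
  ∃ (c q : ℕ) (R B S : BinaryTree Unit) (w0 : X k), NodeBw k c q R B S ∧
    H1.wX R B S q w0 0 ≠ H1.wX R B S q w0 10 ∧
    F = {cyc (H1.wX R B S q w0 0)} ∧ g = gad20 (H1.wX R B S q w0)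

theorem TyBw.toV (h : TyBw F g) : TyV F g := by
  obtain ⟨c, q, R, B, S, w0, h1, hne, h2, h3⟩ := h
  exact ⟨q, R, B, S, w0, h1.toV, hne, h2, h3⟩

theorem TyBw.hF (h : TyBw F g) : ∀ w, w ∈ g.F ↔ cyc w ∈ F := h.toV.hF

theorem TyBw.new (h : TyBw F g) : ∀ c ∈ F, ∃ u ∈ g.B, cyc u = c := h.toV.new

theorem TyBw.old (h : TyBw F g) : ∃ u ∈ g.B, cyc u ∉ F := h.toV.old

theorem TyBw.abs (h : TyBw F g) : g.Abs := h.toV.abs

/-- rank: every old word is `Lower` than the new T-cycle -/
theorem TyBw.rank (h : TyBw F g) : ∀ w ∈ g.B, cyc w ∈ F ∨ ∀ c ∈ F, H1.Lower (contc (cyc w)) (contc c) := h.toV.rank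

theorem TyBw.path (h : TyBw F g) : ∀ a ∈ g.arcs, ∃ n : ℕ, (TT ^ (n + 1)) a.1 = a.2 ∧ a.1 ∈ g.B ∧
    ∀ i < n, (TT ^ (i + 1)) a.1 ∈ innA a := h.toV.path

theorem TyBw.words (h : TyBw F g) : ∀ w ∈ g.B, ∃ (c q : ℕ) (R B S : BinaryTree Unit) (w0 : X k) (i : ℕ),
    NodeBw k c q R B S ∧ i < 20 ∧ w = H1.wX R B S q w0 i ∧ cyc (H1.wX R B S q w0 0) ∈ F := by
  obtain ⟨c, q, R, B, S, w0, h1, hne, rfl, rfl⟩ := h
  intro w hw
  obtain ⟨i, hi, rfl⟩ := mem_gad20.1 hw
  exact ⟨c, q, R, B, S, w0, i, h1, hi, rfl, rfl⟩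

/-- the content of the new T-cycle: `c` once, all other parts at least `q + 3` -/
theorem TyBw.content (h : TyBw F g) : ∃ c q : ℕ, ∃ M : Multiset ℕ, 2 ≤ c ∧ c < q + 3 ∧ (∀ x ∈ M, q + 3 ≤ x) ∧
    M ≠ 0 ∧ ∀ d ∈ F, contc d = {c} + M + {q + 3} := by
  obtain ⟨c, q, R, B, S, w0, h1, hne, rfl, rfl⟩ := h
  refine ⟨c, q, (cont R).erase c, h1.c2, h1.lt, ?_, ?_, ?_⟩
  · intro x hx
    rcases h1.part x (Multiset.mem_of_mem_erase hx) with h2 | h2
    · exfalso
      subst h2
      have h3 := Multiset.one_le_count_iff_mem.2 hx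
      rw [Multiset.count_erase_self, h1.one] at h3
      omega
    · exact h2
  · intro e
    have h2 : cont R = {c} := by
      have := Multiset.cons_erase h1.memR
      rw [e] at this
      exact this.symm
    have h3 := h1.top
    rw [ht_eq, h2] at h3
    have h4 := h1.lt
    rw [Multiset.sup_singleton] at h3
    omega
  · rintro d rfl
    change cont _ = _
    rw [h1.toV.cont0, Multiset.singleton_add, Multiset.cons_erase h1.memR]

/-- the words 0 and 10 are different -/
theorem NodeBw.ne10 {c q : ℕ} {R B S : BinaryTree Unit} (h : NodeBw k c q R B S) :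
    app R (H1.ch (q + 3)) ≠ app B (app (H1.ch (q + 3)) S) := by
  obtain ⟨A, D, hR, hD⟩ := h.md
  intro e
  have hc : c ∉ cont (app D (H1.ch (q + 3))) := by
    rw [cont_app, H1.ch_cont, Multiset.mem_add, not_or, Multiset.mem_singleton]
    have := h.lt
    exact ⟨hD, by omega⟩
  apply hc
  have hS := h.memS
  rw [hR] at e
  cases hB : B with
  | nil =>
    rw [hB] at e
    have e' : A △ app D (H1.ch (q + 3)) = H1.ch (q + 2) △ S := e
    rw [(H1.node_inj e').2]
    exact hS
  | node _ A' B' =>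
    rw [hB] at e
    have e' : A △ app D (H1.ch (q + 3)) = A' △ app B' (app (H1.ch (q + 3)) S) := e
    rw [(H1.node_inj e').2, cont_app, cont_app]
    exact Multiset.mem_add.2 (Or.inr (Multiset.mem_add.2 (Or.inr hS)))

/-- existence of the group over a word `R[q + 3]` -/
theorem TyBw.ex {c q : ℕ} {R B S : BinaryTree Unit} (h : NodeBw k c q R B S) (z : X k)
    (hz : z.1 = app R (H1.ch (q + 3))) : ∃ g : DG k, TyBw {cyc z} g ∧
      g = gad20 (H1.wX R B S q z) ∧ H1.wX R B S q z 0 = z ∧ H1.wX R B S q z 10 ≠ z := by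
  have hw0 : H1.wX R B S q z 0 = z := Subtype.ext (by rw [h.word z (by norm_num), hz]; rfl)
  have hT : TT (TT z) ≠ z := by
    intro e
    have h1 := h.toV.link z (i := 0) (j := 10) (by simp)
    rw [hw0, e] at h1
    have h2 := congrArg Subtype.val h1
    rw [hz, h.word z (by norm_num)] at h2
    exact h.ne10 h2
  obtain ⟨g, h1, h2, h3, h4⟩ := TyV.ex h.toV z hz hT
  refine ⟨g, ⟨c, q, R, B, S, z, h, ?_, ?_, h2⟩, h2, h3, h4⟩
  · rw [h3]
    exact h4.symm
  · rw [h3]

end Pool.OddHC
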