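import Pool.Agent.Work.MP_8f87b2_h69w.TyBw
import Pool.Agent.Work.MP_8f87b2_h13.R3E

/-!
# MP_8f87b2_co: the B-window (`c = 3`) against the E-triples

`NodeV.eshape` (`1 ≤ q`): the words of the form `(X)`, `X()`, `()X`, `X ≠ nil`, are the words 3, 1, 2 with `X = R()Q` and,
if `B = nil`, the words 14, 18, 11 with `X = Q()S`.
`NodeBw.elow`: for the marker `c = 3` a Low `X` is only possible for `B = nil`, `q = 1, 2`, `X = Q()S`.
`TyBw3.E_hit`: disjoint, or `B = nil` and `F' = {cyc w18, cyc w11}`.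
-/

set_option autoImplicit false

namespace Pool.OddHC

open Finset Equiv BinaryTree Pool.Agent.Work.MP_8f87b2_co HM

variable {k : ℕ} {F F' : Set (Cyc k)} {g g' : DG k}

theorem lastB_nilQ {q : ℕ} (hq : 1 ≤ q) : H1.lastB (H1.ch (q + 1)) = false := by
  rw [H1.ch_succ, H1.lastB_one, H1.isNil_f]
  obtain ⟨q', rfl⟩ : ∃ q', q = q' + 1 := ⟨q - 1, by omega⟩
  exact BW.chne q'

theorem fb_nilQ {q : ℕ} (hq : 1 ≤ q) : H1.fb (H1.ch (q + 1)) = false := by
  rw [H1.ch_succ, H1.fb, H1.isNil_f]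
  obtain ⟨q', rfl⟩ : ∃ q', q = q' + 1 := ⟨q - 1, by omega⟩
  exact BW.chne q'

theorem fb_app {P Q : BinaryTree Unit} (h : P ≠ .nil) : H1.fb (app P Q) = H1.fb P := by
  cases P with
  | nil => exact absurd rfl h
  | node _ A X => rfl

namespace BW

theorem nv_fb {A : BinaryTree Unit} (h : nv A) : H1.fb A = false := by
  cases A with
  | nil => rfl
  | node _ A X =>
    rw [H1.fb, H1.isNil_f]
    exact ig_ne h.1

end BW

namespace NodeV

variable {q : ℕ} {R B S : BinaryTree Unit}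

theorem fbW (h : NodeV k q R B S) (hq : 1 ≤ q) {i : ℕ} (hi : i < 20)
    (e : H1.fb (H1.W R (H1.ch (q + 1)) B S i) = true) : i = 2 ∨ (i = 11 ∧ B = .nil) := by
  have hR := BW.nv_fb h.nvR
  have hS := BW.nv_fb h.nvS
  have hQ := fb_nilQ hq
  have nQ : H1.ch (q + 1) ≠ .nil := BW.chne q
  have NR : H1.isNil R = false := H1.isNil_f.2 h.ne
  have NS : H1.isNil S = false := H1.isNil_f.2 h.neS
  have NQ : H1.isNil (H1.ch (q + 1)) = false := H1.isNil_f.2 nQ
  have NQ' : H1.isNil (H1.ch q) = false := by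
    obtain ⟨q', rfl⟩ : ∃ q', q = q' + 1 := ⟨q - 1, by omega⟩
    exact H1.isNil_f.2 (BW.chne q')
  have NA : ∀ P A X : BinaryTree Unit, H1.isNil (app P (A △ X)) = false := fun P A X =>
    H1.isNil_f.2 (H1.app_ne (by simp))
  have fN : ∀ A X : BinaryTree Unit, H1.fb (A △ X) = H1.isNil A := fun _ _ => rfl
  have NN : ∀ A X : BinaryTree Unit, H1.isNil (A △ X) = false := fun _ _ => rfl
  have fA : ∀ X : BinaryTree Unit, H1.fb (app (H1.ch (q + 1)) X) = false := fun X => by rw [fb_app nQ, hQ]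
  have fR' : ∀ X : BinaryTree Unit, H1.fb (app R X) = false := fun X => by rw [fb_app h.ne, hR]
  have fS' : ∀ X : BinaryTree Unit, H1.fb (app S X) = false := fun X => by rw [fb_app h.neS, hS]
  have fB' : B ≠ .nil → ∀ X : BinaryTree Unit, H1.fb (app B X) = false := fun hB X => by
    rw [fb_app hB]
    exact BW.nv_fb h.nvB
  by_cases hB : B = .nil
  · subst hB
    interval_cases i <;> simp only [H1.W, app, fA, fR', fS', fN, NN, NR, NS, NQ, NA, Bool.false_eq_true] at e <;>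
      first
        | exact Or.inl rfl
        | exact Or.inr ⟨rfl, rfl⟩
  · have fB'' := fB' hB
    interval_cases i <;> simp only [H1.W, fA, fR', fS', fB'', fN, NN, NR, NS, NQ, NA, Bool.false_eq_true] at e <;>
      exact Or.inl rfl

theorem lastW (h : NodeV k q R B S) (hq : 1 ≤ q) {i : ℕ} (hi : i < 20)
    (e : H1.lastB (H1.W R (H1.ch (q + 1)) B S i) = true) : i = 1 ∨ (i = 18 ∧ B = .nil) := by
  have hR := BW.nv_last h.nvR
  have hS := BW.nv_last h.nvS
  have hB0 := BW.nv_last h.nvB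
  have hQ := lastB_nilQ hq
  have nQ : H1.ch (q + 1) ≠ .nil := BW.chne q
  have NR : H1.isNil R = false := H1.isNil_f.2 h.ne
  have NS : H1.isNil S = false := H1.isNil_f.2 h.neS
  have NQ : H1.isNil (H1.ch (q + 1)) = false := H1.isNil_f.2 nQ
  have NA : ∀ P A X : BinaryTree Unit, H1.isNil (app P (A △ X)) = false := fun P A X =>
    H1.isNil_f.2 (H1.app_ne (by simp))
  have NN : ∀ A X : BinaryTree Unit, H1.isNil (A △ X) = false := fun _ _ => rfl
  have l1 : ∀ A : BinaryTree Unit, H1.lastB (A △ .nil) = H1.isNil A := fun _ => rfl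
  have lA : ∀ P A X : BinaryTree Unit, H1.lastB (app P (A △ X)) = H1.lastB (A △ X) := fun P A X =>
    H1.lastB_app (by simp)
  have lc : ∀ A C X : BinaryTree Unit, H1.lastB (A △ (C △ X)) = H1.lastB (C △ X) := fun A C X =>
    H1.lastB_cons (by simp)
  have lcR : ∀ A : BinaryTree Unit, H1.lastB (A △ R) = false := fun A => by rw [H1.lastB_cons h.ne, hR]
  have lcS : ∀ A : BinaryTree Unit, H1.lastB (A △ S) = false := fun A => by rw [H1.lastB_cons h.neS, hS]
  have lcQ : ∀ A : BinaryTree Unit, H1.lastB (A △ H1.ch (q + 1)) = false := fun A => by rw [H1.lastB_cons nQ, hQ]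
  have lcA : ∀ A P C X : BinaryTree Unit, H1.lastB (A △ app P (C △ X)) = H1.lastB (C △ X) := fun A P C X => by
    rw [H1.lastB_cons (H1.app_ne (by simp)), H1.lastB_app (by simp)]
  by_cases hB : B = .nil
  · subst hB
    interval_cases i <;> simp only [H1.W, app, lA, lcA, lc, lcR, lcS, lcQ, l1, NN, NR, NS, NQ, NA,
      Bool.false_eq_true] at e <;>
      first
        | exact Or.inl rfl
        | exact Or.inr ⟨rfl, rfl⟩
  · have lcB : ∀ A : BinaryTree Unit, H1.lastB (A △ B) = false := fun A => by rw [H1.lastB_cons hB, hB0]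
    have lcB2 : ∀ A C : BinaryTree Unit, H1.lastB (A △ (C △ B)) = false := fun A C => by rw [lc, lcB]
    have NB : H1.isNil B = false := H1.isNil_f.2 hB
    interval_cases i <;> simp only [H1.W, lA, lcA, lc, lcR, lcS, lcQ, lcB, lcB2, l1, NN, NR, NS, NQ, NB, NA,
      Bool.false_eq_true] at e <;>
      exact Or.inl rfl

/-- **the words of E-shape** -/
theorem eshape (h : NodeV k q R B S) (hq : 1 ≤ q) {i : ℕ} (hi : i < 20) {X : BinaryTree Unit}
    (e : H1.W R (H1.ch (q + 1)) B S i = w1 .nil X .nil ∨ H1.W R (H1.ch (q + 1)) B S i = w1 X .nil .nil ∨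
      H1.W R (H1.ch (q + 1)) B S i = w1 .nil .nil X) :
    ((i = 1 ∨ i = 2 ∨ i = 3) ∧ X = app R (.nil △ H1.ch (q + 1))) ∨
    (B = .nil ∧ (i = 11 ∨ i = 14 ∨ i = 18) ∧ X = app (H1.ch (q + 1)) (.nil △ S)) := by
  obtain ⟨q', rfl⟩ : ∃ q', q = q' + 1 := ⟨q - 1, by omega⟩
  have hN := BW.Nj.mk h.nvR h.nvB h.nvS h.top h.dat.htS
  rcases e with e | e | e
  · have hL := (hN.lenW i hi).symm.trans (congrArg H1.len e)
    have l1 : H1.len (w1 .nil X .nil) = 1 := rfl
    have hr := H1.len_pos h.ne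
    have hs := H1.len_pos h.neS
    rw [l1] at hL
    have hi3 : i = 3 ∨ (i = 14 ∧ H1.len B = 0) := by
      interval_cases i <;> simp only [BW.lenT] at hL <;> omega
    rcases hi3 with rfl | ⟨rfl, hB⟩
    · left
      refine ⟨Or.inr (Or.inr rfl), ?_⟩
      have e' : app R (.nil △ H1.ch (q' + 2)) △ .nil = X △ .nil := e
      exact (H1.node_inj e').1.symm
    · right
      refine ⟨BW.len0 hB, Or.inr (Or.inl rfl), ?_⟩
      have e' : app (H1.ch (q' + 2)) (.nil △ S) △ B = X △ .nil := e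
      exact (H1.node_inj e').1.symm
  · have h1 : H1.lastB (w1 X .nil .nil) = true := H1.lastB_app (by simp)
    rw [← e] at h1
    rcases h.lastW hq hi h1 with rfl | ⟨rfl, hB⟩
    · left
      refine ⟨Or.inl rfl, ?_⟩
      have e' : app R (.nil △ app (H1.ch (q' + 2)) (.nil △ .nil)) = app X (.nil △ .nil) := e
      have e2 : app R (.nil △ app (H1.ch (q' + 2)) (.nil △ .nil)) =
          app (app R (.nil △ H1.ch (q' + 2))) (.nil △ .nil) := by
        rw [H1.app_assoc]; rfl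
      rw [e2] at e'
      exact (H1.app_snoc e').1.symm
    · right
      refine ⟨hB, Or.inr (Or.inr rfl), ?_⟩
      subst hB
      have e' : app (H1.ch (q' + 2)) (.nil △ app S (.nil △ .nil)) = app X (.nil △ .nil) := e
      have e2 : app (H1.ch (q' + 2)) (.nil △ app S (.nil △ .nil)) =
          app (app (H1.ch (q' + 2)) (.nil △ S)) (.nil △ .nil) := by
        rw [H1.app_assoc]; rfl
      rw [e2] at e'
      exact (H1.app_snoc e').1.symm
  · have h1 : H1.fb (w1 .nil .nil X) = true := rfl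
    rw [← e] at h1
    rcases h.fbW hq hi h1 with rfl | ⟨rfl, hB⟩
    · left
      refine ⟨Or.inr (Or.inl rfl), ?_⟩
      have e' : BinaryTree.nil △ app R (.nil △ H1.ch (q' + 2)) = .nil △ X := e
      exact (H1.node_inj e').2.symm
    · right
      refine ⟨hB, Or.inl rfl, ?_⟩
      subst hB
      have e' : BinaryTree.nil △ app (H1.ch (q' + 2)) (.nil △ S) = .nil △ X := e
      exact (H1.node_inj e').2.symm

end NodeV

namespace NodeBw

variable {q : ℕ} {R B S : BinaryTree Unit}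

theorem q1 {c : ℕ} (h : NodeBw k c q R B S) (hc : 3 ≤ c) : 1 ≤ q := by
  have := h.lt
  omega

/-- the inside of a heavy component of height `≤ 2` -/
theorem gd_two {A : BinaryTree Unit} (h : H1.gd A) (h2 : ht A ≤ 2) : A = H1.ch 2 := by
  rcases h with h | ⟨h0, h⟩
  · exact h
  · exfalso
    have := H1.hv_ht h h0
    rw [H1.ht_eq] at this
    omega

/-- **the marker `3`: only `X = Q()S`, `B = nil`, `q = 1, 2`, is Low** -/
theorem elow (h : NodeBw k 3 q R B S) {i : ℕ} (hi : i < 20) {X : BinaryTree Unit} (hl : LowX X)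
    (e : H1.W R (H1.ch (q + 1)) B S i = w1 .nil X .nil ∨ H1.W R (H1.ch (q + 1)) B S i = w1 X .nil .nil ∨
      H1.W R (H1.ch (q + 1)) B S i = w1 .nil .nil X) :
    B = .nil ∧ (q = 1 ∨ q = 2) ∧ (i = 11 ∨ i = 14 ∨ i = 18) ∧ X = app (H1.ch (q + 1)) (.nil △ S) := by
  have hq := h.q1 (le_refl 3)
  rcases h.toV.eshape hq hi e with ⟨_, h2⟩ | ⟨hB, h1, h2⟩
  · exfalso
    obtain ⟨A, C, hs⟩ : ∃ A C, R = A △ C := by
      cases hs : R with
      | nil => exact absurd hs h.toV.ne
      | node _ A C => exact ⟨A, C, rfl⟩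
    have hR := h.hvR (le_refl 3)
    rw [hs] at hR
    have hf : Fnb A X := by
      rw [h2, hs]
      exact Fnb.node (H1.gd_ne hR.1)
    have h3 : 3 ∈ cont X := by
      rw [h2, cont_app]
      exact Multiset.mem_add.2 (Or.inl h.memR)
    have h4 := hl.not h3 hf
    have h5 := gd_two hR.1 h4
    apply h.st C
    rw [hs, h5]
    rfl
  · refine ⟨hB, ?_, h1, h2⟩
    have h3 : 3 ∈ cont X := by
      rw [h2, cont_app, cont_node]
      exact Multiset.mem_add.2 (Or.inr (Multiset.mem_add.2 (Or.inr h.memS)))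
    have hf : Fnb (H1.ch q) X := by
      rw [h2, BW.aQ]
      refine Fnb.node ?_
      obtain ⟨q', rfl⟩ : ∃ q', q = q' + 1 := ⟨q - 1, by omega⟩
      exact BW.chne q'
    have h4 := hl.not h3 hf
    rw [H1.ch_ht] at h4
    omega

end NodeBw

/-- TYPE Bw with the marker `3` -/
def TyBw3 (F : Set (Cyc k)) (g : DG k) : Prop :=
  ∃ (q : ℕ) (R B S : BinaryTree Unit) (w0 : X k), NodeBw k 3 q R B S ∧
    H1.wX R B S q w0 0 ≠ H1.wX R B S q w0 10 ∧
    F = {cyc (H1.wX R B S q w0 0)} ∧ g = gad20 (H1.wX R B S q w0)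

theorem TyBw3.toBw (h : TyBw3 F g) : TyBw F g := by
  obtain ⟨q, R, B, S, w0, h1⟩ := h
  exact ⟨3, q, R, B, S, w0, h1⟩

/-- **row Bw - E**: disjoint, or `B = nil`, `q = 1, 2` and the E-triple is over `X = Q()S` (its words are 18, 11, 14) -/
theorem TyBw3.E_hit (h : TyBw3 F g) (h' : TyE F' g') : (∀ w ∈ g.B, w ∉ g'.B) ∨
    ∃ (q : ℕ) (R S : BinaryTree Unit) (w0 : X k), NodeBw k 3 q R .nil S ∧ (q = 1 ∨ q = 2) ∧
      H1.wX R .nil S q w0 0 ≠ H1.wX R .nil S q w0 10 ∧
      F = {cyc (H1.wX R .nil S q w0 0)} ∧ g = gad20 (H1.wX R .nil S q w0) ∧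
      IsTri .nil (app (H1.ch (q + 1)) (.nil △ S)) .nil F' g' ∧
      F' = {cyc (H1.wX R .nil S q w0 18), cyc (H1.wX R .nil S q w0 11)} := by
  obtain ⟨q, R, B, S, w0, h1, hne, rfl, rfl⟩ := h
  obtain ⟨X, hX, ht, hl⟩ := h'.low
  by_cases hd : ∀ w ∈ (gad20 (H1.wX R B S q w0)).B, w ∉ g'.B
  · exact Or.inl hd
  · right
    push Not at hd
    obtain ⟨w, hw, hw'⟩ := hd
    obtain ⟨i, hi, rfl⟩ := mem_gad20.1 hw
    have e : H1.W R (H1.ch (q + 1)) B S i = w1 .nil X .nil ∨ H1.W R (H1.ch (q + 1)) B S i = w1 X .nil .nil ∨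
        H1.W R (H1.ch (q + 1)) B S i = w1 .nil .nil X := by
      rw [← h1.word w0 hi]
      rcases ht.words _ hw' with e1 | ⟨_, e1 | e1⟩
      · exact Or.inl e1
      · exact Or.inr (Or.inl e1)
      · exact Or.inr (Or.inr e1)
    obtain ⟨hB, hq, -, hXe⟩ := h1.elow hi hl e
    subst hB
    refine ⟨q, R, S, w0, h1, hq, hne, rfl, rfl, ?_, ?_⟩
    · rw [← hXe]
      exact ht
    · obtain ⟨b, c, hb, hc, hF⟩ := tri_F ht
      rw [hF]
      have e1 : b = H1.wX R .nil S q w0 18 := by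
        apply Subtype.ext
        rw [hb, h1.word w0 (by norm_num), hXe]
        change app (app (H1.ch (q + 1)) (.nil △ S)) (.nil △ .nil) = app (H1.ch (q + 1)) (.nil △ app S (.nil △ .nil))
        rw [H1.app_assoc]
        rfl
      have e2 : c = H1.wX R .nil S q w0 11 := by
        apply Subtype.ext
        rw [hc, h1.word w0 (by norm_num), hXe]
        rfl
      rw [e1, e2]

end Pool.OddHC
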