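import Pool.Agent.Work.MP_8f87b2_h69w.Inj0
import Pool.Agent.Work.MP_8f87b2_h60.TyA0

/-!
# MP_8f87b2_co: TYPE V = the right window `z = R[q + 3]` over ANY word `R` without part 1

`NodeV k q R B S`: `sq R = (S, B)`, no part 1 in `R`, all parts of `B` at least `q + 3`, `q + 3 ≤ ht R`.
`TyV F g`: `F = {cyc (wX R B S q w0 0)}`, `g = gad20 (wX R B S q w0)`: hF, new, old, abs, rank (all old words are `Lower`),
path, words, existence.
-/

set_option autoImplicit false

namespace Pool.OddHC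

open Finset Equiv BinaryTree Pool.Agent.Work.MP_8f87b2_co

variable {k : ℕ} {F F' : Set (Cyc k)} {g g' : DG k}

/-- the data of a right window over a word without part 1 -/
structure NodeV (k q : ℕ) (R B S : BinaryTree Unit) : Prop where
  sq : Tsq.sq R = (S, B)
  two : ∀ x ∈ cont R, 2 ≤ x
  bare : ∀ x ∈ cont B, q + 3 ≤ x
  top : q + 3 ≤ ht R
  size : R.numNodes + q + 3 = k

namespace NodeV

variable {q : ℕ} {R B S : BinaryTree Unit}

theorem dat (h : NodeV k q R B S) : H1.Dat q R B S := ⟨h.sq, h.top, h.bare⟩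

theorem eq (h : NodeV k q R B S) : cont B + cont S = cont R := h.dat.cont

theorem twoS (h : NodeV k q R B S) : ∀ x ∈ cont S, 2 ≤ x := by
  intro x hx
  apply h.two
  rw [← h.eq]
  exact Multiset.mem_add.2 (Or.inr hx)

theorem nvR (h : NodeV k q R B S) : BW.nv R := BW.nv_of_cont h.two

theorem nvS (h : NodeV k q R B S) : BW.nv S := BW.nv_of_cont h.twoS

theorem nvB (h : NodeV k q R B S) : BW.nv B := by
  apply BW.nv_of_cont
  intro x hx
  have := h.bare x hx
  omega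

theorem ne (h : NodeV k q R B S) : R ≠ .nil := h.dat.ne

theorem neS (h : NodeV k q R B S) : S ≠ .nil := by
  rintro rfl
  have h1 := h.dat.htS
  have h2 := h.top
  rw [← h1, ht] at h2
  omega

theorem word (h : NodeV k q R B S) (w0 : X k) {i : ℕ} (hi : i < 20) :
    (H1.wX R B S q w0 i).1 = H1.W R (H1.ch (q + 1)) B S i := H1.wX_eq h.dat h.size w0 hi

theorem link (h : NodeV k q R B S) (w0 : X k) {i j : ℕ}
    (hij : (i, j) ∈ [(0, 10), (1, 11), (3, 12), (6, 15), (8, 14), (9, 17)]) :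
    TT (TT (H1.wX R B S q w0 i)) = H1.wX R B S q w0 j := H1.wX_link h.dat h.size w0 hij

theorem same10 (h : NodeV k q R B S) (w0 : X k) :
    TT.SameCycle (H1.wX R B S q w0 0) (H1.wX R B S q w0 10) := by
  have h1 := h.link w0 (i := 0) (j := 10) (by simp)
  refine ⟨2, ?_⟩
  rw [show (2 : ℤ) = ((2 : ℕ) : ℤ) from rfl, zpow_natCast, pow_two, Perm.mul_apply, h1]

theorem rank (h : NodeV k q R B S) (w0 : X k) : ∀ i < 20, i ≠ 0 → i ≠ 10 →
    H1.Lower (cont (H1.wX R B S q w0 i).1) (cont (H1.wX R B S q w0 0).1) := by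
  intro i hi h0 h10
  rw [H1.wX_cont0 h.dat h.size, h.word w0 hi]
  exact H1.rank_W h.dat i hi h0 h10

theorem hold (h : NodeV k q R B S) (w0 : X k) : ∀ i < 20, i ≠ 0 → i ≠ 10 →
    ¬ TT.SameCycle (H1.wX R B S q w0 0) (H1.wX R B S q w0 i) := H1.wX_hold h.dat h.size w0

/-- the content of the new T-cycle -/
theorem cont0 (h : NodeV k q R B S) (w0 : X k) :
    cont (H1.wX R B S q w0 0).1 = cont R + {q + 3} := H1.wX_cont0 h.dat h.size w0

theorem wne (h : NodeV k q R B S) (w0 : X k) (j : ℕ) (hj : j < 20) (i : ℕ) (hi : i < j) (i0 : i ≠ 0) (i10 : i ≠ 10)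
    (j10 : j ≠ 10) : H1.W R (H1.ch (q + 1)) B S i ≠ H1.W R (H1.ch (q + 1)) B S j := by
  rcases Nat.eq_zero_or_pos q with hq | hq
  · subst hq
    exact (BW.N0.mk h.nvR h.nvB h.nvS h.top h.dat.htS).ne j hj i hi i0 i10 j10
  · obtain ⟨q', rfl⟩ : ∃ q', q = q' + 1 := ⟨q - 1, by omega⟩
    exact (BW.Nj.mk h.nvR h.nvB h.nvS h.top h.dat.htS).ne j hj i hi i0 i10 j10

/-- the twenty words are different -/
theorem winj (h : NodeV k q R B S) (w0 : X k) (hne : H1.wX R B S q w0 0 ≠ H1.wX R B S q w0 10) :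
    ∀ i < 20, ∀ j < 20, H1.wX R B S q w0 i = H1.wX R B S q w0 j → i = j := by
  have key : ∀ j < 20, ∀ i < j, H1.wX R B S q w0 i ≠ H1.wX R B S q w0 j := by
    intro j hj' i hi e
    by_cases i0 : i = 0
    · subst i0
      by_cases j10 : j = 10
      · exact hne (by rw [e, j10])
      · exact h.hold w0 j hj' (by omega) j10 (e ▸ Equiv.Perm.SameCycle.refl _ _)
    · by_cases i10 : i = 10
      · subst i10
        refine h.hold w0 j hj' (by omega) (by omega) ?_
        rw [← e]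
        exact h.same10 w0
      · by_cases j10 : j = 10
        · subst j10
          refine h.hold w0 i (by omega) i0 i10 ?_
          rw [e]
          exact h.same10 w0
        · apply h.wne w0 j hj' i hi i0 i10 j10
          have e1 := congrArg Subtype.val e
          rw [h.word w0 (show i < 20 by omega), h.word w0 hj'] at e1
          exact e1
  intro i hi j hj' e
  rcases lt_trichotomy i j with h1 | h1 | h1
  · exact absurd e (key j hj' i h1)
  · exact h1
  · exact absurd e.symm (key i hi j h1)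

theorem abs (h : NodeV k q R B S) (w0 : X k) (hne : H1.wX R B S q w0 0 ≠ H1.wX R B S q w0 10) :
    (gad20 (H1.wX R B S q w0)).Abs := by
  apply H1.wX_abs h.dat h.size w0
  intro i hi j hj e
  apply h.winj w0 hne i hi j hj
  apply Subtype.ext
  rw [h.word w0 hi, h.word w0 hj, e]

end NodeV

/-- TYPE V: the right window at `[q + 3]` over a word without part 1 -/
def TyV (F : Set (Cyc k)) (g : DG k) : Prop :=
  ∃ (q : ℕ) (R B S : BinaryTree Unit) (w0 : X k), NodeV k q R B S ∧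
    H1.wX R B S q w0 0 ≠ H1.wX R B S q w0 10 ∧
    F = {cyc (H1.wX R B S q w0 0)} ∧ g = gad20 (H1.wX R B S q w0)

theorem TyV.hF (h : TyV F g) : ∀ w, w ∈ g.F ↔ cyc w ∈ F := by
  obtain ⟨q, R, B, S, w0, h1, hne, rfl, rfl⟩ := h
  intro w
  change TT.SameCycle _ _ ↔ cyc w = _
  rw [← cyc_eq]
  exact ⟨fun e => e.symm, fun e => e.symm⟩

theorem TyV.new (h : TyV F g) : ∀ c ∈ F, ∃ u ∈ g.B, cyc u = c := by
  obtain ⟨q, R, B, S, w0, h1, hne, rfl, rfl⟩ := h
  rintro c rfl
  exact ⟨_, mem_gad20.2 ⟨0, by norm_num, rfl⟩, rfl⟩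

theorem TyV.old (h : TyV F g) : ∃ u ∈ g.B, cyc u ∉ F := by
  obtain ⟨q, R, B, S, w0, h1, hne, rfl, rfl⟩ := h
  refine ⟨_, mem_gad20.2 ⟨1, by norm_num, rfl⟩, ?_⟩
  intro e
  have h3 : cyc (H1.wX R B S q w0 1) = cyc (H1.wX R B S q w0 0) := e
  exact h1.hold w0 1 (by norm_num) (by norm_num) (by norm_num) (cyc_eq.1 h3.symm)

theorem TyV.abs (h : TyV F g) : g.Abs := by
  obtain ⟨q, R, B, S, w0, h1, hne, rfl, rfl⟩ := h
  exact h1.abs w0 hne

/-- rank: every old word is `Lower` than the new T-cycle -/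
theorem TyV.rank (h : TyV F g) : ∀ w ∈ g.B, cyc w ∈ F ∨ ∀ c ∈ F, H1.Lower (contc (cyc w)) (contc c) := by
  obtain ⟨q, R, B, S, w0, h1, hne, rfl, rfl⟩ := h
  intro w hw
  obtain ⟨i, hi, rfl⟩ := mem_gad20.1 hw
  by_cases h0 : i = 0
  · left; rw [h0]; rfl
  · by_cases h10 : i = 10
    · left
      rw [h10]
      change cyc _ = cyc _
      exact cyc_eq.2 (h1.same10 w0).symm
    · right
      rintro c rfl
      exact h1.rank w0 i hi h0 h10

theorem TyV.path (h : TyV F g) : ∀ a ∈ g.arcs, ∃ n : ℕ, (TT ^ (n + 1)) a.1 = a.2 ∧ a.1 ∈ g.B ∧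
    ∀ i < n, (TT ^ (i + 1)) a.1 ∈ innA a := by
  obtain ⟨q, R, B, S, w0, h1, hne, rfl, rfl⟩ := h
  intro p hp
  have key : ∀ i j, (i, j) ∈ [(0, 10), (1, 11), (3, 12), (6, 15), (8, 14), (9, 17)] → i < 20 →
      p = (H1.wX R B S q w0 i, H1.wX R B S q w0 j) →
      ∃ n : ℕ, (TT ^ (n + 1)) p.1 = p.2 ∧ p.1 ∈ (gad20 (H1.wX R B S q w0)).B ∧
        ∀ i < n, (TT ^ (i + 1)) p.1 ∈ innA p := by
    rintro i j hij hj rfl
    refine ⟨1, ?_, mem_gad20.2 ⟨i, hj, rfl⟩, ?_⟩
    · rw [pow_succ, pow_one, Perm.mul_apply]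
      exact h1.link w0 hij
    · intro n hn
      obtain rfl : n = 0 := by omega
      rw [pow_one]
      rfl
  have hp' : p = (H1.wX R B S q w0 0, H1.wX R B S q w0 10) ∨
      p = (H1.wX R B S q w0 1, H1.wX R B S q w0 11) ∨
      p = (H1.wX R B S q w0 3, H1.wX R B S q w0 12) ∨
      p = (H1.wX R B S q w0 6, H1.wX R B S q w0 15) ∨
      p = (H1.wX R B S q w0 8, H1.wX R B S q w0 14) ∨
      p = (H1.wX R B S q w0 9, H1.wX R B S q w0 17) := hp
  rcases hp' with e | e | e | e | e | e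
  · exact key 0 10 (by simp) (by norm_num) e
  · exact key 1 11 (by simp) (by norm_num) e
  · exact key 3 12 (by simp) (by norm_num) e
  · exact key 6 15 (by simp) (by norm_num) e
  · exact key 8 14 (by simp) (by norm_num) e
  · exact key 9 17 (by simp) (by norm_num) e

theorem TyV.words (h : TyV F g) : ∀ w ∈ g.B, ∃ (q : ℕ) (R B S : BinaryTree Unit) (w0 : X k) (i : ℕ),
    NodeV k q R B S ∧ i < 20 ∧ w = H1.wX R B S q w0 i ∧ cyc (H1.wX R B S q w0 0) ∈ F := by
  obtain ⟨q, R, B, S, w0, h1, hne, rfl, rfl⟩ := h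
  intro w hw
  obtain ⟨i, hi, rfl⟩ := mem_gad20.1 hw
  exact ⟨q, R, B, S, w0, i, h1, hi, rfl, rfl⟩

/-- existence of the group over a word `R[q + 3]` -/
theorem TyV.ex {q : ℕ} {R B S : BinaryTree Unit} (h : NodeV k q R B S) (z : X k)
    (hz : z.1 = app R (H1.ch (q + 3))) (hT : TT (TT z) ≠ z) : ∃ g : DG k, TyV {cyc z} g ∧
      g = gad20 (H1.wX R B S q z) ∧ H1.wX R B S q z 0 = z ∧ H1.wX R B S q z 10 ≠ z := by
  have e0 : H1.wX R B S q z 0 = z := by
    apply Subtype.ext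
    rw [h.word z (by norm_num), hz]
    rfl
  have h10 : H1.wX R B S q z 10 ≠ z := by
    rw [← h.link z (i := 0) (j := 10) (by simp), e0]
    exact hT
  refine ⟨_, ⟨q, R, B, S, z, h, ?_, ?_, rfl⟩, rfl, e0, h10⟩
  · rw [e0]
    exact h10.symm
  · rw [e0]

end Pool.OddHC
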