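import Pool.Agent.Work.MP_8f87b2_h69w.BwE
import Pool.Agent.Work.MP_8f87b2_h27.Ed
import Pool.Agent.Work.MP_8f87b2_h29.EdWin

/-!
# MP_8f87b2_co: right windows over any word without part 1 (`NodeV`) against E-triples, exact forms

`NodeV.e_tri` : any E-shaped triple over `X ≠ nil`: words 1, 2, 3 with `X = R()Q`, or `B = nil`, words 11, 14, 18, `X = Q()S`.
`NodeV.ed_tri` : the same for deep `X` (no part 2, 3): then `3 ≤ q`.
`NodeBw.E_hit` (`3 ≤ c`): against `TyE`: `F' = {cyc w1, cyc w2}` only for `4 ≤ c`, `3 ≤ q`; `F' = {cyc w18, cyc w11}` only for `B = nil`.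
-/

set_option autoImplicit false

namespace Pool.OddHC

open Finset Equiv BinaryTree Pool.Agent.Work.MP_8f87b2_co HM

variable {k : ℕ} {F F' : Set (Cyc k)} {g g' : DG k}

namespace NodeV

variable {q : ℕ} {R B S X : BinaryTree Unit}

/-- **exact form**, any triple over `X ≠ nil`, `q ≥ 1` -/
theorem e_tri (h : NodeV k q R B S) (w0 : OddHC.X k) (hq : 1 ≤ q) (ht : IsTri .nil X .nil F' g') {i : ℕ} (hi : i < 20)
    (hw : H1.wX R B S q w0 i ∈ g'.B) :
    (X = app R (.nil △ H1.ch (q + 1)) ∧ F' = {cyc (H1.wX R B S q w0 1), cyc (H1.wX R B S q w0 2)} ∧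
      (i = 1 ∨ i = 2 ∨ i = 3)) ∨
    (B = .nil ∧ X = app (H1.ch (q + 1)) (.nil △ S) ∧
      F' = {cyc (H1.wX R B S q w0 18), cyc (H1.wX R B S q w0 11)} ∧ (i = 11 ∨ i = 14 ∨ i = 18)) := by
  have e : H1.W R (H1.ch (q + 1)) B S i = w1 .nil X .nil ∨ H1.W R (H1.ch (q + 1)) B S i = w1 X .nil .nil ∨
      H1.W R (H1.ch (q + 1)) B S i = w1 .nil .nil X := by
    rw [← h.word w0 hi]
    rcases ht.words _ hw with e1 | ⟨_, e1 | e1⟩
    · exact Or.inl e1
    · exact Or.inr (Or.inl e1)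
    · exact Or.inr (Or.inr e1)
  obtain ⟨b, c, hb, hc, hF⟩ := tri_F ht
  rcases h.eshape hq hi e with ⟨h1, h2⟩ | ⟨hB, h1, h2⟩
  · left
    refine ⟨h2, ?_, by omega⟩
    rw [hF]
    have e1 : b = H1.wX R B S q w0 1 := by
      apply Subtype.ext
      rw [hb, h.word w0 (by norm_num), h2]
      change app (app R (.nil △ H1.ch (q + 1))) (.nil △ .nil) = app R (.nil △ app (H1.ch (q + 1)) (.nil △ .nil))
      rw [H1.app_assoc]
      rfl
    have e2 : c = H1.wX R B S q w0 2 := by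
      apply Subtype.ext
      rw [hc, h.word w0 (by norm_num), h2]
      rfl
    rw [e1, e2]
  · right
    subst hB
    refine ⟨rfl, h2, ?_, h1⟩
    rw [hF]
    have e1 : b = H1.wX R .nil S q w0 18 := by
      apply Subtype.ext
      rw [hb, h.word w0 (by norm_num), h2]
      change app (app (H1.ch (q + 1)) (.nil △ S)) (.nil △ .nil) = app (H1.ch (q + 1)) (.nil △ app S (.nil △ .nil))
      rw [H1.app_assoc]
      rfl
    have e2 : c = H1.wX R .nil S q w0 11 := by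
      apply Subtype.ext
      rw [hc, h.word w0 (by norm_num), h2]
      rfl
    rw [e1, e2]

/-- **exact form, deep `X`** -/
theorem ed_tri (h : NodeV k q R B S) (w0 : OddHC.X k) (hq : 1 ≤ q) (ht : IsTri .nil X .nil F' g')
    (h2 : 2 ∉ cont X) (h3 : 3 ∉ cont X) {i : ℕ} (hi : i < 20) (hw : H1.wX R B S q w0 i ∈ g'.B) : 3 ≤ q ∧
    ((X = app R (.nil △ H1.ch (q + 1)) ∧ F' = {cyc (H1.wX R B S q w0 1), cyc (H1.wX R B S q w0 2)} ∧
      (i = 1 ∨ i = 2 ∨ i = 3)) ∨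
    (B = .nil ∧ X = app (H1.ch (q + 1)) (.nil △ S) ∧
      F' = {cyc (H1.wX R B S q w0 18), cyc (H1.wX R B S q w0 11)} ∧ (i = 11 ∨ i = 14 ∨ i = 18))) := by
  have key := h.e_tri w0 hq ht hi hw
  refine ⟨?_, key⟩
  have hm : q + 1 ∈ cont X := by
    rcases key with ⟨e, _⟩ | ⟨_, e, _⟩
    · rw [e, cont_app, cont_node, H1.ch_cont]
      exact Multiset.mem_add.2 (Or.inr (Multiset.mem_add.2 (Or.inr (Multiset.mem_singleton_self _))))
    · rw [e, cont_app, H1.ch_cont]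
      exact Multiset.mem_add.2 (Or.inl (Multiset.mem_singleton_self _))
  by_contra hq3
  have : q = 1 ∨ q = 2 := by omega
  rcases this with rfl | rfl
  · exact h2 hm
  · exact h3 hm

/-- the word 11 is on the T-cycle of the word 1 -/
theorem cyc11 (h : NodeV k q R B S) (w0 : OddHC.X k) : cyc (H1.wX R B S q w0 11) = cyc (H1.wX R B S q w0 1) := by
  rw [← h.link w0 (i := 1) (j := 11) (by simp)]
  have e : ∀ x : OddHC.X k, cyc (TT x) = cyc x := fun x => cyc_eq.2 ⟨-1, by simp⟩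
  rw [e, e]

/-- **against Ed** -/
theorem ed_hit (h : NodeV k q R B S) (w0 : OddHC.X k) (hq : 1 ≤ q) (h' : TyEd F' g')
    {i : ℕ} (hi : i < 20) (hw : H1.wX R B S q w0 i ∈ g'.B) : 3 ≤ q ∧
    ((IsTri .nil (app R (.nil △ H1.ch (q + 1))) .nil F' g' ∧
      F' = {cyc (H1.wX R B S q w0 1), cyc (H1.wX R B S q w0 2)} ∧ (i = 1 ∨ i = 2 ∨ i = 3)) ∨
    (B = .nil ∧ IsTri .nil (app (H1.ch (q + 1)) (.nil △ S)) .nil F' g' ∧
      F' = {cyc (H1.wX R B S q w0 18), cyc (H1.wX R B S q w0 11)} ∧ (i = 11 ∨ i = 14 ∨ i = 18))) := by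
  obtain ⟨X, hX, h2, h3, ht⟩ := h'.data3
  obtain ⟨a0, a1⟩ := h.ed_tri w0 hq ht h2 h3 hi hw
  refine ⟨a0, ?_⟩
  rcases a1 with ⟨a2, a3, a4⟩ | ⟨a1, a2, a3, a4⟩
  · left
    subst a2
    exact ⟨ht, a3, a4⟩
  · right
    subst a2
    exact ⟨a1, ht, a3, a4⟩

end NodeV

/-- **the B-window against E**, marker `c ≥ 3` -/
theorem NodeBw.E_hit {c q : ℕ} {R B S : BinaryTree Unit} (h : NodeBw k c q R B S) (hc : 3 ≤ c) (w0 : X k)
    (h' : TyE F' g') {i : ℕ} (hi : i < 20) (hw : H1.wX R B S q w0 i ∈ g'.B) :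
    (4 ≤ c ∧ 3 ≤ q ∧ IsTri .nil (app R (.nil △ H1.ch (q + 1))) .nil F' g' ∧
      F' = {cyc (H1.wX R B S q w0 1), cyc (H1.wX R B S q w0 2)} ∧ (i = 1 ∨ i = 2 ∨ i = 3)) ∨
    (B = .nil ∧ (c = 3 → q = 1 ∨ q = 2) ∧ IsTri .nil (app (H1.ch (q + 1)) (.nil △ S)) .nil F' g' ∧
      F' = {cyc (H1.wX R B S q w0 18), cyc (H1.wX R B S q w0 11)} ∧ (i = 11 ∨ i = 14 ∨ i = 18)) := by
  obtain ⟨X, hX, ht, hl'⟩ := h'.low
  have hl : LowX X := hl'
  have hq := h.q1 hc
  rcases h.toV.e_tri w0 hq ht hi hw with ⟨e1, e2, e3⟩ | ⟨e0, e1, e2, e3⟩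
  · left
    obtain ⟨A, C, hs⟩ : ∃ A C, R = A △ C := by
      cases hs : R with
      | nil => exact absurd hs h.toV.ne
      | node _ A C => exact ⟨A, C, rfl⟩
    have hR := h.hvR hc
    have hcR := h.hcR
    rw [hs] at hR hcR
    have hf : Fnb A X := by
      rw [e1, hs]
      exact Fnb.node (H1.gd_ne hR.1)
    have hA := hcR.1
    have no3 : 3 ∉ cont X := fun h3 => by
      have := hl.not h3 hf
      omega
    have c4 : 4 ≤ c := by
      by_contra hc4
      obtain rfl : c = 3 := by omega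
      apply no3
      rw [e1, cont_app]
      exact Multiset.mem_add.2 (Or.inl h.memR)
    have q3 : 3 ≤ q := by
      by_contra hq3
      have h1 := h.lt
      obtain rfl : q = 2 := by omega
      apply no3
      rw [e1, cont_app, cont_node, H1.ch_cont]
      exact Multiset.mem_add.2 (Or.inr (Multiset.mem_add.2 (Or.inr (Multiset.mem_singleton_self _))))
    refine ⟨c4, q3, ?_, e2, e3⟩
    rw [← e1]
    exact ht
  · right
    refine ⟨e0, ?_, ?_, e2, e3⟩
    · rintro rfl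
      have hmem : 3 ∈ cont X := by
        rw [e1, cont_app, cont_node]
        exact Multiset.mem_add.2 (Or.inr (Multiset.mem_add.2 (Or.inr h.memS)))
      have hf : Fnb (H1.ch q) X := by
        rw [e1, BW.aQ]
        refine Fnb.node ?_
        obtain ⟨q', rfl⟩ : ∃ q', q = q' + 1 := ⟨q - 1, by omega⟩
        exact BW.chne q'
      have h4 := hl.not hmem hf
      rw [H1.ch_ht] at h4
      omega
    · rw [← e1]
      exact ht

end Pool.OddHC
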