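import Pool.Agent.Work.MP_8f87b2_h69w.TyBw
import Pool.Agent.Work.MP_8f87b2_h48.EB
import Pool.Agent.Work.MP_8f87b2_h60.Runs
import Pool.Agent.Work.MP_8f87b2_mid.Same
import Pool.Agent.Work.MP_8f87b2_h58.Late

/-!
# MP_8f87b2_co: existence of the B-window: `NodeBw` for `R = mk C r p` of `EB`

`BW.BF c t`: the facts on a word `t` with one marker `[c + 1]` inside of the first component.
-/

set_option autoImplicit false

namespace Pool.OddHC

open Finset Equiv BinaryTree Pool.Agent.Work.MP_8f87b2_co

variable {k : ℕ} {F F' : Set (Cyc k)} {g g' : DG k}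

namespace BW

open H1

/-- no component of `t` is `(A)` with `A = ch n` -/
def nc (n : ℕ) : BinaryTree Unit → Prop
  | .nil => True
  | .node _ A C => A ≠ ch n ∧ nc n C

theorem nc_node {n : ℕ} {A C : BinaryTree Unit} : nc n (A △ C) ↔ A ≠ ch n ∧ nc n C := Iff.rfl

theorem nc_of {n : ℕ} : ∀ {t : BinaryTree Unit}, n + 1 ∉ cont t → nc n t := by
  intro t
  induction t with
  | nil => intro _; trivial
  | node _ A C _ ih =>
    intro h
    have h' : n + 1 ∉ raise (cont A) + cont C := h
    rw [Multiset.mem_add, not_or] at h'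
    refine ⟨?_, ih h'.2⟩
    rintro rfl
    apply h'.1
    have h1 : cont (ch (n + 1)) = raise (cont (ch n)) := by
      rw [ch_succ, cont_node, cont_nil, add_zero]
    rw [← h1, ch_cont]
    exact Multiset.mem_singleton_self _

/-- contents and components -/
theorem hcp_of {c n : ℕ} (hn : c + 1 < n) : ∀ {t : BinaryTree Unit}, (∀ x ∈ cont t, x = c + 1 ∨ n ≤ x) →
    (cont t).count (c + 1) ≤ 1 → nc c t → hcp n t := by
  intro t
  induction t with
  | nil => intro _ _ _; trivial
  | node _ A C _ ih =>
    intro h1 h2 h3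
    have h1' : ∀ x ∈ raise (cont A) + cont C, x = c + 1 ∨ n ≤ x := h1
    have h2' : (raise (cont A) + cont C).count (c + 1) ≤ 1 := h2
    rw [Multiset.count_add] at h2'
    refine ⟨?_, ih (fun x hx => h1' x (Multiset.mem_add.2 (Or.inr hx))) (by omega) h3.2⟩
    have h4 : OddHC.ht A + 1 ∈ raise (cont A) := by
      rw [OddHC.ht_eq A]
      unfold raise
      exact Multiset.mem_cons_self _ _
    rcases h1' _ (Multiset.mem_add.2 (Or.inl h4)) with h5 | h5
    · exfalso
      -- all parts of `(A)` are `c + 1`, at most one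
      apply h3.1
      have h6 : (cont A).sup = c := by rw [← OddHC.ht_eq A]; omega
      have h8 : raise (cont A) = (c + 1) ::ₘ (cont A).erase c := by
        unfold raise
        rw [h6]
      have h7 : raise (cont A) = {c + 1} := by
        rw [h8]
        have h9 : (cont A).erase c = 0 := by
          rw [Multiset.eq_zero_iff_forall_notMem]
          intro x hx
          have h10 : x ≤ c := by
            rw [← h6]
            exact Multiset.le_sup (Multiset.mem_of_mem_erase hx)
          have h11 : x ∈ raise (cont A) := by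
            rw [h8]
            exact Multiset.mem_cons_of_mem hx
          rcases h1' x (Multiset.mem_add.2 (Or.inl h11)) with h12 | h12 <;> omega
        rw [h9]
        rfl
      have h13 : cont (A △ .nil) = {c + 1} := by
        rw [cont_node, cont_nil, add_zero, h7]
      have h14 := EB.eq_pc_of_cont' h13
      rw [← ch_eq, ch_succ] at h14
      exact (node_inj h14).1
    · omega

/-- the first maximum of `(ch n) Z`, `Z` not higher -/
theorem FM_ch (n : ℕ) {Z : BinaryTree Unit} (hZ : Tsq.ht Z ≤ n + 1) :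
    FM (ch n △ Z) (List.replicate n true) (List.replicate (n + 1) false ++ wd Z) := by
  have hh : Tsq.ht (ch n △ Z) = n + 1 := by
    rw [Tsq.ht_node, H1.ht_eq (ch n), ch_ht]
    omega
  refine ⟨?_, ?_, ?_⟩
  · rw [wd_node, wd_ch, List.replicate_succ', ← List.cons_append, ← List.cons_append,
      ← List.replicate_succ, List.replicate_succ']
    simp
  · intro m
    rw [hh, List.take_replicate, List.count_replicate_self]
    omega
  · rw [hh, List.count_replicate_self, List.count_replicate]
    simp

/-- what follows the first maximum of a heavy word of height `> c` -/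
theorem FMV_heavy {c : ℕ} (hc : 1 ≤ c) {t : BinaryTree Unit} (h : hg (c + 1) t) (ht : c + 1 < Tsq.ht t) :
    ∃ a b, FMV c t a b := by
  have h0 : t ≠ .nil := by
    rintro rfl
    simp [Tsq.ht] at ht
  obtain ⟨_, a, b, h1, ⟨a', h2⟩, ⟨v, h3, h4⟩⟩ := hg_FM (by omega) h h0
  refine ⟨a, b, h1, ?_, Or.inl ?_⟩
  · obtain ⟨n, rfl⟩ : ∃ n, c = n + 1 := ⟨c - 1, by omega⟩
    refine ⟨a' ++ [true], ?_⟩
    rw [h2]
    simp [List.replicate_succ]
  · rcases h4 with rfl | ⟨r, rfl⟩ | ⟨r, rfl⟩
    · exfalso
      have e1 := congrArg (List.count true) h1.eq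
      have e2 := congrArg (List.count false) h1.eq
      have e3 := h1.top
      have e4 := wd_counts t
      rw [List.count_append, h3] at e1 e2
      simp only [List.append_nil, List.count_cons, List.count_replicate] at e1 e2
      simp at e1 e2
      omega
    · exact Or.inl ⟨r, by rw [h3, List.replicate_succ' (n := c + 1)]; simp⟩
    · exact Or.inr ⟨r, h3⟩

/-- the facts on a word with one marker `[c + 1]` inside -/
structure BF (c : ℕ) (t : BinaryTree Unit) : Prop where
  cnt : (cont t).count (c + 1) = 1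
  prt : ∀ x ∈ cont t, x = c + 1 ∨ c + 2 ≤ x
  hgt : c + 2 ≤ OddHC.ht t
  nT : nc c t
  bB : c + 1 ∉ cont (Tsq.sq t).2
  nS : nc c (Tsq.sq t).1 ∨ ∃ B, t = (ch c △ ch (c + 1)) △ B ∧ Tsq.sq t = (ch (c + 1) △ ch (c + 1), B)
  fm : ∃ u v, FMV (c + 1) t u v
  md : ∃ A D, t = A △ D ∧ c + 1 ∉ cont D

theorem not_mem_of {c : ℕ} {M : Multiset ℕ} (h : ∀ x ∈ M, c + 2 ≤ x) : c + 1 ∉ M := fun h1 => by
  have := h _ h1
  omega

theorem ne_ch {c : ℕ} {t : BinaryTree Unit} (h : c < OddHC.ht t) : t ≠ ch c := by
  rintro rfl
  rw [ch_ht] at h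
  omega

/-- step: one more bracket -/
theorem BF.step {c : ℕ} (hc : 1 ≤ c) {t D : BinaryTree Unit} (h : BF c t) (hD : ∀ x ∈ cont D, c + 2 ≤ x) :
    BF c (t △ D) := by
  have hD0 := not_mem_of hD
  have hh := h.hgt
  have ht0 : t ≠ .nil := by
    rintro rfl
    rw [OddHC.ht] at hh
    omega
  have hct : (raise (cont t)).count (c + 1) = 1 := by
    rw [count_raise (c + 1) (by rw [← OddHC.ht_eq t]; omega) (by rw [← OddHC.ht_eq t]; omega), h.cnt]
  refine ⟨?_, ?_, ?_, ?_, ?_, ?_, ?_, ⟨_, _, rfl, hD0⟩⟩
  · rw [cont_node, Multiset.count_add, hct, Multiset.count_eq_zero.2 hD0]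
  · intro x hx
    rw [cont_node, Multiset.mem_add] at hx
    rcases hx with hx | hx
    · unfold raise at hx
      rw [Multiset.mem_cons] at hx
      rcases hx with rfl | hx
      · right
        rw [← OddHC.ht_eq t]
        omega
      · exact h.prt x (Multiset.mem_of_mem_erase hx)
    · exact Or.inr (hD x hx)
  · rw [OddHC.ht_node]
    omega
  · exact ⟨ne_ch (by omega), nc_of hD0⟩
  · by_cases hlt : Tsq.ht t + 1 < Tsq.ht D
    · have hDn : D ≠ .nil := by
        rintro rfl
        simp [Tsq.ht] at hlt
      obtain ⟨Xx, Y, hX⟩ : ∃ Xx Y, (Tsq.sq D).1 = Xx △ Y := by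
        cases hs : (Tsq.sq D).1 with
        | nil => exact absurd hs (Tsq.sq_ne hDn)
        | node _ A C => exact ⟨A, C, rfl⟩
      rw [Tsq.sq_lt hlt hX]
      intro h1
      apply hD0
      rw [← HM.sq_cont hDn]
      exact Multiset.mem_add.2 (Or.inl h1)
    · rw [Tsq.sq_ge ht0 (by omega)]
      exact hD0
  · left
    by_cases hlt : Tsq.ht t + 1 < Tsq.ht D
    · have hDn : D ≠ .nil := by
        rintro rfl
        simp [Tsq.ht] at hlt
      obtain ⟨Xx, Y, hX⟩ : ∃ Xx Y, (Tsq.sq D).1 = Xx △ Y := by
        cases hs : (Tsq.sq D).1 with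
        | nil => exact absurd hs (Tsq.sq_ne hDn)
        | node _ A C => exact ⟨A, C, rfl⟩
      rw [Tsq.sq_lt hlt hX]
      refine ⟨ne_ch (by rw [OddHC.ht_node]; omega), nc_of ?_⟩
      intro h1
      apply hD0
      rw [← HM.sq_cont hDn, hX, cont_node]
      exact Multiset.mem_add.2 (Or.inr (Multiset.mem_add.2 (Or.inr h1)))
    · rw [Tsq.sq_ge ht0 (by omega)]
      refine ⟨ne_ch ?_, nc_of h.bB⟩
      have h1 := (Tsq.ht_sq ht0).1
      rw [H1.ht_eq, H1.ht_eq] at h1
      omega
  · by_cases hlt : Tsq.ht t + 1 < Tsq.ht D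
    · obtain ⟨a, b, h1⟩ := FMV_heavy (c := c + 1) (by omega) (t := D) (hg_of_cont (by omega) hD) (by
        rw [H1.ht_eq] at hlt; omega)
      have h2 := h1.app_left (P := t △ .nil) (by
        rw [Tsq.ht_node]
        simp only [Tsq.ht]
        omega)
      exact ⟨_, _, h2⟩
    · obtain ⟨u, v, h1⟩ := h.fm
      exact ⟨_, _, h1.node (Z := D) (by omega)⟩

theorem sqc (n : ℕ) : Tsq.sq (ch (n + 1)) = (ch (n + 1), .nil) := by
  induction n with
  | zero => rfl
  | succ n ih =>
    rw [ch_succ, Tsq.sq_ge (BW.chne n) (by simp [Tsq.ht]), ih]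

/-- base: `([c + 1] A) B` -/
theorem BF.base {c : ℕ} (hc : 1 ≤ c) {A B : BinaryTree Unit} (hA : A ≠ .nil)
    (h : ∀ x ∈ cont (A △ B), c + 2 ≤ x) : BF c ((ch c △ A) △ B) := by
  have h' : ∀ x ∈ raise (cont A) + cont B, c + 2 ≤ x := h
  have hB : ∀ x ∈ cont B, c + 2 ≤ x := fun x hx => h' x (Multiset.mem_add.2 (Or.inr hx))
  have hrA : ∀ x ∈ raise (cont A), c + 2 ≤ x := fun x hx => h' x (Multiset.mem_add.2 (Or.inl hx))
  have hB0 := not_mem_of hB
  have hA0 : cont A ≠ 0 := fun e => hA (cont_eq_zero.1 e)
  have hm : OddHC.ht A + 1 ∈ raise (cont A) := by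
    rw [OddHC.ht_eq A]
    unfold raise
    exact Multiset.mem_cons_self _ _
  have hhA : c + 1 ≤ OddHC.ht A := by
    have := hrA _ hm
    omega
  have hcn : cont (ch c △ A) = cont A + {c + 1} := by
    have e1 : raise (cont (ch c)) = {c + 1} := by
      have h1 : cont (ch (c + 1)) = raise (cont (ch c)) := by
        rw [ch_succ, cont_node, cont_nil, add_zero]
      rw [← h1, ch_cont]
    rw [cont_node, e1, add_comm]
  have hr : raise (cont (ch c △ A)) = raise (cont A) + {c + 1} := by
    rw [hcn]
    apply H1.raise_add hA0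
    intro x hx
    rw [Multiset.mem_singleton] at hx
    rw [← OddHC.ht_eq A]
    omega
  have hP0 : ch c △ A ≠ .nil := by simp
  have hPh : OddHC.ht (ch c △ A) = OddHC.ht A := by
    rw [OddHC.ht_node, ch_ht]
    omega
  -- the case of a marker next to the peak
  have hcase : (c + 1 < OddHC.ht A ∧ c + 1 ∉ cont A) ∨ A = ch (c + 1) := by
    rcases Nat.lt_or_ge (c + 1) (OddHC.ht A) with h1 | h1
    · left
      refine ⟨h1, ?_⟩
      intro h2
      have h3 : c + 1 ∈ (cont A).erase (cont A).sup := by
        rw [Multiset.mem_erase_of_ne]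
        · exact h2
        · rw [← OddHC.ht_eq A]
          omega
      have h4 := hrA (c + 1) (by
        unfold raise
        exact Multiset.mem_cons_of_mem h3)
      omega
    · right
      have h2 : (cont A).sup = c + 1 := by rw [← OddHC.ht_eq A]; omega
      have h3 : (cont A).erase (c + 1) = 0 := by
        rw [Multiset.eq_zero_iff_forall_notMem]
        intro x hx
        have h4 : x ≤ c + 1 := by
          rw [← h2]
          exact Multiset.le_sup (Multiset.mem_of_mem_erase hx)
        have h5 := hrA x (by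
          unfold raise
          rw [h2]
          exact Multiset.mem_cons_of_mem hx)
        omega
      have h4 : c + 1 ∈ cont A := by
        rw [← h2]
        exact sup_mem hA0
      have h5 : cont A = {c + 1} := by
        rw [← Multiset.cons_erase h4, h3]
        rfl
      rw [EB.eq_pc_of_cont' h5, ch_eq]
  refine ⟨?_, ?_, ?_, ?_, ?_, ?_, ?_, ⟨_, _, rfl, hB0⟩⟩
  · rw [cont_node, hr, Multiset.count_add, Multiset.count_add, Multiset.count_eq_zero.2 hB0,
      Multiset.count_eq_zero.2 (not_mem_of hrA), Multiset.count_singleton_self]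
  · intro x hx
    rw [cont_node, hr, Multiset.mem_add, Multiset.mem_add, Multiset.mem_singleton] at hx
    rcases hx with (hx | hx) | hx
    · exact Or.inr (hrA x hx)
    · exact Or.inl hx
    · exact Or.inr (hB x hx)
  · rw [OddHC.ht_node, hPh]
    omega
  · exact ⟨ne_ch (by omega), nc_of hB0⟩
  · by_cases hlt : Tsq.ht (ch c △ A) + 1 < Tsq.ht B
    · have hDn : B ≠ .nil := by
        rintro rfl
        simp [Tsq.ht] at hlt
      obtain ⟨Xx, Y, hX⟩ : ∃ Xx Y, (Tsq.sq B).1 = Xx △ Y := by
        cases hs : (Tsq.sq B).1 with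
        | nil => exact absurd hs (Tsq.sq_ne hDn)
        | node _ A C => exact ⟨A, C, rfl⟩
      rw [Tsq.sq_lt hlt hX]
      intro h1
      apply hB0
      rw [← HM.sq_cont hDn]
      exact Multiset.mem_add.2 (Or.inl h1)
    · rw [Tsq.sq_ge hP0 (by omega)]
      exact hB0
  · by_cases hlt : Tsq.ht (ch c △ A) + 1 < Tsq.ht B
    · left
      have hDn : B ≠ .nil := by
        rintro rfl
        simp [Tsq.ht] at hlt
      obtain ⟨Xx, Y, hX⟩ : ∃ Xx Y, (Tsq.sq B).1 = Xx △ Y := by
        cases hs : (Tsq.sq B).1 with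
        | nil => exact absurd hs (Tsq.sq_ne hDn)
        | node _ A C => exact ⟨A, C, rfl⟩
      rw [Tsq.sq_lt hlt hX]
      refine ⟨ne_ch (by rw [OddHC.ht_node]; omega), nc_of ?_⟩
      intro h1
      apply hB0
      rw [← HM.sq_cont hDn, hX, cont_node]
      exact Multiset.mem_add.2 (Or.inr (Multiset.mem_add.2 (Or.inr h1)))
    · rw [Tsq.sq_ge hP0 (by omega)]
      rcases hcase with ⟨h1, h2⟩ | h1
      · left
        refine ⟨ne_ch ?_, nc_of ?_⟩
        · have h3 := (Tsq.ht_sq hP0).1
          rw [H1.ht_eq, H1.ht_eq] at h3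
          omega
        · have h3 : Tsq.ht (ch c) + 1 < Tsq.ht A := by
            rw [H1.ht_eq, H1.ht_eq, ch_ht]
            exact h1
          obtain ⟨Xx, Y, hX⟩ : ∃ Xx Y, (Tsq.sq A).1 = Xx △ Y := by
            cases hs : (Tsq.sq A).1 with
            | nil => exact absurd hs (Tsq.sq_ne hA)
            | node _ A C => exact ⟨A, C, rfl⟩
          rw [Tsq.sq_lt h3 hX]
          intro h4
          apply h2
          rw [← HM.sq_cont hA]
          exact Multiset.mem_add.2 (Or.inl h4)
      · right
        subst h1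
        refine ⟨B, rfl, ?_⟩
        obtain ⟨n, rfl⟩ : ∃ n, c = n + 1 := ⟨c - 1, by omega⟩
        have h3 := sqc n
        have h4 : Tsq.sq (ch (n + 1) △ ch (n + 2)) = (ch (n + 2), ch (n + 2)) := by
          rw [Tsq.sq_ge (BW.chne n) (by rw [H1.ht_eq, H1.ht_eq, ch_ht, ch_ht]), h3]
          rfl
        rw [h4]
  · by_cases hlt : Tsq.ht (ch c △ A) + 1 < Tsq.ht B
    · obtain ⟨a, b, h1⟩ := FMV_heavy (c := c + 1) (by omega) (t := B) (hg_of_cont (by omega) hB) (by
        rw [H1.ht_eq, hPh] at hlt; omega)
      have h2 := h1.app_left (P := (ch c △ A) △ .nil) (by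
        rw [Tsq.ht_node]
        simp only [Tsq.ht] at hlt ⊢
        omega)
      exact ⟨_, _, h2⟩
    · rcases hcase with ⟨h1, h2⟩ | h1
      · have h3 : hg (c + 2) A := by
          apply hg_of_cont (by omega)
          intro x hx
          by_cases hx1 : x = (cont A).sup
          · rw [← OddHC.ht_eq A] at hx1
            omega
          · apply hrA x
            unfold raise
            exact Multiset.mem_cons_of_mem ((Multiset.mem_erase_of_ne hx1).2 hx)
        obtain ⟨_, a, b, h4, ⟨a', h5⟩, h6⟩ := hg_FM (by omega) h3 hA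
        have h7 := h4.app_left (P := ch (c + 1)) (by rw [H1.ht_eq, H1.ht_eq, ch_ht]; exact h1)
        have h8 : app (ch (c + 1)) A = ch c △ A := rfl
        rw [h8] at h7
        have h9 := h7.node (Z := B) (by omega)
        refine ⟨_, _, h9, ?_, Or.inl (h6.cons _)⟩
        refine ⟨true :: (wd (ch (c + 1)) ++ (a' ++ [true])), ?_⟩
        rw [h5, Nat.add_sub_cancel]
        have e : List.replicate (c + 2 - 1) true = [true] ++ List.replicate c true := by
          rw [show c + 2 - 1 = c + 1 by omega, List.replicate_succ]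
          rfl
        rw [e]
        simp
      · subst h1
        have h3 := FM_ch c (Z := ch (c + 1)) (by rw [H1.ht_eq, ch_ht])
        have h4 := h3.node (Z := B) (by omega)
        refine ⟨_, _, h4, ⟨[true], by rw [Nat.add_sub_cancel]; rfl⟩, Or.inr ?_⟩
        refine ⟨List.replicate (c + 1) false ++ false :: wd B, ?_⟩
        rw [wd_ch]
        simp

/-! ### The word `mk C r p` -/

/-- one more letter before the marker -/
theorem mk_step (C : ℕ) {A D : BinaryTree Unit} (hA : A ≠ .nil) {p : ℕ} (hp : p ≤ 2 * A.numNodes) :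
    EB.mk C (A △ D) (p + 1) = EB.mk C A p △ inf^[C + 1] D := by
  induction C with
  | zero =>
    change ins (A △ D) _ = ins A _ △ inf D
    have h0 : (A △ D).numNodes = A.numNodes + D.numNodes + 1 := rfl
    have h1 : (List.replicate (p + 1) 0 ++ 1 :: List.replicate (2 * (A △ D).numNodes - (p + 1)) 0 : List ℕ) =
        0 :: ((List.replicate p 0 ++ 1 :: List.replicate (2 * A.numNodes - p) 0) ++
          List.replicate (2 * D.numNodes + 1) 0) := by
      rw [List.replicate_succ, List.cons_append, List.append_assoc, List.cons_append,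
        List.replicate_append_replicate]
      congr 4
      omega
    have h2 : (List.replicate p 0 ++ 1 :: List.replicate (2 * A.numNodes - p) 0 : List ℕ).length =
        2 * A.numNodes + 1 := by
      simp only [List.length_append, List.length_replicate, List.length_cons]
      omega
    rw [h1]
    have h3 : bump A (List.replicate p 0 ++ 1 :: List.replicate (2 * A.numNodes - p) 0) =
        List.replicate p 0 ++ 1 :: List.replicate (2 * A.numNodes - p) 0 := by
      cases A with
      | nil => exact absurd rfl hA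
      | node _ _ _ => rfl
    rw [ins, List.headD_cons, List.tail_cons, List.drop_succ_cons, ← h2, List.take_left, List.drop_left, h3]
    rfl
  | succ C ih =>
    have h1 : EB.mk (C + 1) (A △ D) (p + 1) = inf (EB.mk C (A △ D) (p + 1)) := rfl
    have h2 : EB.mk (C + 1) A p = inf (EB.mk C A p) := rfl
    have h3 : EB.mk C A p ≠ .nil := by
      have h4 := iy_num A (List.replicate p 0 ++ 1 :: List.replicate (2 * A.numNodes - p) 0) (by
        simp only [List.length_append, List.length_replicate, List.length_cons]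
        omega) C
      intro h5
      unfold EB.mk at h5
      rw [h5] at h4
      have h6 : A.numNodes ≠ 0 := by
        cases A with
        | nil => exact absurd rfl hA
        | node _ X Y =>
          change X.numNodes + Y.numNodes + 1 ≠ 0
          omega
      have h7 : (BinaryTree.nil : BinaryTree Unit).numNodes = 0 := rfl
      rw [h7] at h4
      omega
    rw [h1, ih, inf_node, inf1_eq h3, h2, Function.iterate_succ_apply' inf (C + 1)]

theorem cont_iter (r : BinaryTree Unit) : ∀ n : ℕ, cont (inf^[n] r) = (cont r).map (· + n) := by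
  intro n
  induction n with
  | zero => simp
  | succ n ih =>
    rw [Function.iterate_succ_apply', cont_inf, ih, Multiset.map_map]
    rfl

/-- **all facts for `mk C r p`**, `1 ≤ p`, all parts of `r` at least `p` -/
theorem BF_mk {C : ℕ} (hC : 1 ≤ C) : ∀ (p : ℕ) (r : BinaryTree Unit), 1 ≤ p → r ≠ .nil → (∀ x ∈ cont r, p ≤ x) →
    BF C (EB.mk C r p) := by
  intro p
  induction p with
  | zero => intro r h; omega
  | succ p ih =>
    intro r _ hr h
    rcases Nat.eq_zero_or_pos p with rfl | hp
    · obtain ⟨A, B, h1, h2, h3⟩ := EB.mk_one C hr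
      rw [h3, ← ch_eq]
      apply BF.base hC h1
      intro x hx
      rw [← h2, cont_iter, Multiset.mem_map] at hx
      obtain ⟨y, hy, rfl⟩ := hx
      have := h y hy
      omega
    · cases r with
      | nil => exact absurd rfl hr
      | node _ A D =>
        have h' : ∀ x ∈ raise (cont A) + cont D, p + 1 ≤ x := h
        have hA1 : ∀ x ∈ cont A, p ≤ x := by
          intro x hx
          by_cases hx1 : x = (cont A).sup
          · have h1 := h' ((cont A).sup + 1) (Multiset.mem_add.2 (Or.inl (by
              unfold raise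
              exact Multiset.mem_cons_self _ _)))
            omega
          · have h1 := h' x (Multiset.mem_add.2 (Or.inl (by
              unfold raise
              exact Multiset.mem_cons_of_mem ((Multiset.mem_erase_of_ne hx1).2 hx))))
            omega
        have hA : A ≠ .nil := by
          rintro rfl
          have h1 := h' 1 (Multiset.mem_add.2 (Or.inl (by
            rw [cont_nil, raise_zero]
            exact Multiset.mem_singleton_self _)))
          omega
        have h2 : p ≤ A.numNodes := by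
          have h3 := hA1 _ (sup_mem (fun e => hA (cont_eq_zero.1 e)))
          rw [← OddHC.ht_eq A] at h3
          exact le_trans h3 (H1.ht_le_nm A)
        change BF C (EB.mk C (A △ D) (p + 1))
        rw [mk_step C hA (by omega)]
        apply BF.step hC (ih A hp hA hA1)
        intro x hx
        rw [cont_iter, Multiset.mem_map] at hx
        obtain ⟨y, hy, rfl⟩ := hx
        have := h' y (Multiset.mem_add.2 (Or.inr hy))
        omega

theorem inf_it_nil (n : ℕ) : inf^[n] (.nil : BinaryTree Unit) = .nil := by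
  induction n with
  | zero => rfl
  | succ n ih =>
    rw [Function.iterate_succ_apply', ih]
    rfl

/-- the marker at the last gap -/
theorem mk_last (C : ℕ) (r : BinaryTree Unit) : EB.mk C r (2 * r.numNodes) = app (inf^[C + 1] r) (ch (C + 1)) := by
  induction C with
  | zero =>
    change ins r (List.replicate (2 * r.numNodes) 0 ++ 1 :: List.replicate (2 * r.numNodes - 2 * r.numNodes) 0) = _
    rw [Nat.sub_self]
    have h1 := ins_snoc r (List.replicate (2 * r.numNodes) 0) 0 List.length_replicate
    have h2 : (List.replicate (2 * r.numNodes) 0 ++ [0] : List ℕ) = List.replicate (2 * r.numNodes + 1) 0 := by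
      rw [← List.replicate_succ']
    rw [h2] at h1
    exact h1
  | succ C ih =>
    have h1 : EB.mk (C + 1) r (2 * r.numNodes) = inf (EB.mk C r (2 * r.numNodes)) := rfl
    have h2 : inf (ch (C + 1)) = ch (C + 2) := by
      rw [ch_succ, inf_node, ch_eq, inf1_pc, ← ch_eq]
      rfl
    rw [h1, ih, inf_app, h2, Function.iterate_succ_apply' inf (C + 1)]

/-- `(([n + 1][c + 1]))`, `n + 1 ≥ c + 3` -/
theorem BF.base2 {c n : ℕ} (hc : 1 ≤ c) (hn : c + 2 ≤ n) : BF c (((ch n △ ch (c + 1)) △ .nil) △ .nil) := by
  have e1 : cont (ch n △ ch (c + 1)) = {n + 1} + {c + 1} := by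
    have h1 : raise (cont (ch n)) = {n + 1} := by
      have h1 : cont (ch (n + 1)) = raise (cont (ch n)) := by
        rw [ch_succ, cont_node, cont_nil, add_zero]
      rw [← h1, ch_cont]
    rw [cont_node, h1, ch_cont]
  have e2 : cont ((ch n △ ch (c + 1)) △ .nil) = {n + 2} + {c + 1} := by
    rw [cont_node, cont_nil, add_zero, e1, H1.raise_add (by simp) (by
      intro x hx
      rw [Multiset.mem_singleton] at hx
      rw [Multiset.sup_singleton]
      omega), raise_single]
  have e3 : cont (((ch n △ ch (c + 1)) △ .nil) △ .nil) = {n + 3} + {c + 1} := by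
    rw [cont_node, cont_nil, add_zero, e2, H1.raise_add (by simp) (by
      intro x hx
      rw [Multiset.mem_singleton] at hx
      rw [Multiset.sup_singleton]
      omega), raise_single]
  have hh : OddHC.ht (((ch n △ ch (c + 1)) △ .nil) △ .nil) = n + 3 := by
    rw [OddHC.ht_node, OddHC.ht_node, OddHC.ht_node, ch_ht, ch_ht]
    simp only [OddHC.ht]
    omega
  obtain ⟨n', rfl⟩ : ∃ n', n = n' + 1 := ⟨n - 1, by omega⟩
  have s1 : Tsq.sq (ch (n' + 1) △ ch (c + 1)) = (ch (n' + 2), ch (c + 1)) := by
    rw [Tsq.sq_ge (BW.chne n') (by rw [H1.ht_eq, H1.ht_eq, ch_ht, ch_ht]; omega), sqc]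
    rfl
  have s2 : Tsq.sq ((ch (n' + 1) △ ch (c + 1)) △ .nil) = (ch (n' + 2) △ ch (c + 1), .nil) := by
    rw [Tsq.sq_ge (by simp) (by simp [Tsq.ht]), s1]
  have s3 : Tsq.sq (((ch (n' + 1) △ ch (c + 1)) △ .nil) △ .nil) = ((ch (n' + 2) △ ch (c + 1)) △ .nil, .nil) := by
    rw [Tsq.sq_ge (by simp) (by simp [Tsq.ht]), s2]
  refine ⟨?_, ?_, by rw [hh]; omega, ?_, ?_, ?_, ?_, ⟨_, _, rfl, by rw [cont_nil]; simp⟩⟩
  · rw [e3, Multiset.count_add, Multiset.count_singleton_self, Multiset.count_singleton, if_neg (by omega)]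
  · intro x hx
    rw [e3, Multiset.mem_add, Multiset.mem_singleton, Multiset.mem_singleton] at hx
    omega
  · refine ⟨ne_ch ?_, trivial⟩
    rw [OddHC.ht_node, OddHC.ht_node, ch_ht]
    omega
  · rw [s3, cont_nil]
    simp
  · left
    rw [s3]
    refine ⟨ne_ch ?_, trivial⟩
    rw [OddHC.ht_node, ch_ht]
    omega
  · have h3 := FM_ch (n' + 1) (Z := ch (c + 1)) (by rw [H1.ht_eq, ch_ht]; omega)
    have h4 := (h3.node (Z := .nil) (by simp [Tsq.ht])).node (Z := .nil) (by simp [Tsq.ht])
    refine ⟨_, _, h4, ?_, Or.inl (Or.inl ?_)⟩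
    · obtain ⟨m, rfl⟩ : ∃ m, n' = c + m := ⟨n' - c, by omega⟩
      refine ⟨true :: true :: List.replicate (m + 1) true, ?_⟩
      rw [Nat.add_sub_cancel, List.cons_append, List.cons_append, List.replicate_append_replicate]
      congr 3
      omega
    · obtain ⟨m, rfl⟩ : ∃ m, n' = c + m + 1 := ⟨n' - c - 1, by omega⟩
      refine ⟨List.replicate m false ++ wd (ch (c + 1)) ++ false :: (wd .nil) ++ false :: wd .nil, ?_⟩
      simp only [← List.append_assoc]
      rw [List.replicate_append_replicate]
      have e : c + m + 1 + 1 + 1 = c + 1 + 1 + 1 + m := by omega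
      rw [e]

/-- **three solitons**: `mk C (pc m) p` for the positions behind the peak -/
theorem BF_mk3 {C : ℕ} (hC : 1 ≤ C) : ∀ (h n : ℕ), 2 ≤ n → 2 ≤ h →
    BF C (EB.mk C (ch (n + h)) (2 * n + h)) := by
  intro h
  induction h with
  | zero => intro n _ h; omega
  | succ h ih =>
    intro n hn hh
    have hne : ch (n + h) ≠ .nil := by
      obtain ⟨m, hm⟩ : ∃ m, n + h = m + 1 := ⟨n + h - 1, by omega⟩
      rw [hm]
      exact BW.chne m
    have e : EB.mk C (ch (n + (h + 1))) (2 * n + (h + 1)) = EB.mk C (ch (n + h)) (2 * n + h) △ .nil := by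
      have h1 := mk_step C (A := ch (n + h)) (D := .nil) hne (p := 2 * n + h) (by rw [ch_num]; omega)
      rw [inf_it_nil] at h1
      exact h1
    rw [e]
    rcases Nat.lt_or_ge h 2 with h1 | h1
    · obtain rfl : h = 1 := by omega
      have e2 : EB.mk C (ch (n + 1)) (2 * n + 1) = EB.mk C (ch n) (2 * n) △ .nil := by
        have hne' : ch n ≠ .nil := by
          obtain ⟨m, rfl⟩ : ∃ m, n = m + 1 := ⟨n - 1, by omega⟩
          exact BW.chne m
        have h1 := mk_step C (A := ch n) (D := .nil) hne' (p := 2 * n) (by rw [ch_num])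
        rw [inf_it_nil] at h1
        exact h1
      have e3 : EB.mk C (ch n) (2 * n) = ch (n + C) △ ch (C + 1) := by
        have h2 := mk_last C (ch n)
        rw [ch_num] at h2
        rw [h2]
        have h3 : ∀ m, inf^[m] (ch n) = ch (n + m) := by
          intro m
          induction m with
          | zero => rfl
          | succ m ih2 =>
            obtain ⟨a, ha⟩ : ∃ a, n + m = a + 1 := ⟨n + m - 1, by omega⟩
            rw [Function.iterate_succ_apply', ih2, ← Nat.add_assoc, ha, ch_succ, inf_node, ch_eq, inf1_pc, ← ch_eq]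
            rfl
        rw [h3]
        rfl
      rw [e2, e3]
      exact BF.base2 hC (by omega)
    · exact BF.step hC (ih n hn h1) (by rw [cont_nil]; simp)

end BW

end Pool.OddHC
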