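import Pool.Agent.Work.MP_8f87b2_h69w.BwEx

/-!
# MP_8f87b2_co: existence of the B-window

`NodeBw.of` : the data from the facts `BF`. `NodeBw.exi` : every T-cycle with a unique smallest part `c ≥ 2`, next part
`b`, at least three solitons, contains a word `R[b]` with `NodeBw` (the marker at a gap `1 ≤ p ≤ b - c`).
`NodeBw.three` : three solitons `(m + c, b, c)`, every gap `p ∈ [1, m] ∪ [m + 2, 2 m - 2]`.
-/

set_option autoImplicit false

namespace Pool.OddHC

open Finset Equiv BinaryTree Pool.Agent.Work.MP_8f87b2_co Multiset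

variable {k : ℕ} {F F' : Set (Cyc k)} {g g' : DG k}

/-- **NodeBw from the facts** -/
theorem NodeBw.of {C q : ℕ} {R : BinaryTree Unit} (hC : 1 ≤ C) (h : BW.BF C R) (hq : C + 1 < q + 3)
    (hp : ∀ x ∈ cont R, x = C + 1 ∨ q + 3 ≤ x) (hs : R.numNodes + q + 3 = k) :
    NodeBw k (C + 1) q R (Tsq.sq R).2 (Tsq.sq R).1 := by
  have hh := h.hgt
  have hR : R ≠ .nil := by
    rintro rfl
    rw [OddHC.ht] at hh
    omega
  have hsq := HM.sq_cont hR
  have htop : q + 3 ≤ ht R := by
    have h1 : ht R ∈ cont R := by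
      rw [OddHC.ht_eq R]
      exact sup_mem (fun e => hR (cont_eq_zero.1 e))
    rcases hp _ h1 with h2 | h2 <;> omega
  refine ⟨rfl, by omega, hq, h.cnt, hp, ?_, htop, hs, ?_, ?_, h.fm, h.md⟩
  · intro x hx
    have h1 : x ∈ cont R := by
      rw [← hsq]
      exact Multiset.mem_add.2 (Or.inl hx)
    rcases hp x h1 with rfl | h2
    · exact absurd hx h.bB
    · exact h2
  · exact BW.hcp_of (c := C) (by omega) hp (by rw [h.cnt]) h.nT
  · rcases h.nS with h1 | ⟨B, h1, h2⟩
    · left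
      refine BW.hcp_of (c := C) (by omega) ?_ ?_ h1
      · intro x hx
        apply hp
        rw [← hsq]
        exact Multiset.mem_add.2 (Or.inr hx)
      · have h3 := h.cnt
        rw [← hsq, Multiset.count_add] at h3
        omega
    · right
      have h3 : C + 2 ∈ cont R := by
        rw [h1, cont_node]
        apply Multiset.mem_add.2
        left
        have h4 : ht (H1.ch C △ H1.ch (C + 1)) = C + 1 := by
          rw [OddHC.ht_node, H1.ch_ht, H1.ch_ht]
          omega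
        unfold raise
        rw [← OddHC.ht_eq (H1.ch C △ H1.ch (C + 1)), h4]
        exact Multiset.mem_cons_self _ _
      have h4 : q + 2 = C + 1 := by
        rcases hp _ h3 with h5 | h5 <;> omega
      refine ⟨h4, ?_, ?_⟩
      · rw [h2]
        exact h1
      · rw [h2]

theorem BW.cont_mk (C : ℕ) (r : BinaryTree Unit) (p : ℕ) (hp : p ≤ 2 * r.numNodes) :
    cont (EB.mk C r p) = (cont r).map (· + (C + 1)) + {C + 1} := by
  have h1 := HN.cont_iy r (List.replicate p 0 ++ 1 :: List.replicate (2 * r.numNodes - p) 0) (by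
    simp only [List.length_append, List.length_replicate, List.length_cons]
    omega) C
  unfold EB.mk
  rw [h1]
  simp

/-- **existence**: `c = C + 1` the unique smallest part, `b = Y + 1 + c` the next one, at least three solitons -/
theorem NodeBw.exi (z : X k) {C Y q : ℕ} (hC : 1 ≤ C) (hq : q + 3 = Y + 1 + (C + 1)) (hmin : ∀ x ∈ cont z.1, C + 1 ≤ x)
    (hc : (cont z.1).count (C + 1) = 1) (hb : Y + 1 + (C + 1) ∈ cont z.1)
    (hbm : ∀ x ∈ cont z.1, x ≠ C + 1 → Y + 1 + (C + 1) ≤ x) (h3 : 3 ≤ pkn z.1) :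
    ∃ (R B S : BinaryTree Unit) (w : X k), NodeBw k (C + 1) q R B S ∧ (TT : Equiv.Perm (X k)).SameCycle z w ∧
      w.1 = app R (H1.ch (q + 3)) := by
  obtain ⟨j, l, h1, _, _, h5⟩ := EB.eb z C Y hmin hc hb hbm
  -- `2 (Y + 1) ≤ j`
  have hj : 2 * (Y + 1) ≤ j := by
    have e1 := cont_sum z.1
    have e2 := cont_card z.1
    have e3 : C + 1 ∈ cont z.1 := by
      rw [← Multiset.one_le_count_iff_mem, hc]
    obtain ⟨N, hN⟩ := Multiset.exists_cons_of_mem e3
    rw [hN, Multiset.sum_cons, X_num] at e1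
    rw [hN, Multiset.card_cons] at e2
    have e4 : ∀ x ∈ N, Y + 1 + (C + 1) ≤ x := by
      intro x hx
      apply hbm x
      · rw [hN]
        exact Multiset.mem_cons_of_mem hx
      · rintro rfl
        rw [hN, Multiset.count_cons_self] at hc
        have := Multiset.one_le_count_iff_mem.2 hx
        omega
    have e5 := Multiset.card_nsmul_le_sum e4
    rw [smul_eq_mul] at e5
    have e6 : Multiset.card N + 1 = pkn z.1 := e2
    have e7 : 2 ≤ Multiset.card N := by omega
    rw [← e6] at h1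
    nlinarith
  -- the gap
  obtain ⟨gg, hgg⟩ : ∃ gg, gg = Nat.gcd (Y + 1) (2 * j + 1) := ⟨_, rfl⟩
  have hg0 : 1 ≤ gg := by
    rw [hgg]
    exact Nat.gcd_pos_of_pos_left _ (by omega)
  have hgY : gg ≤ Y + 1 := by
    rw [hgg]
    exact Nat.gcd_le_left _ (by omega)
  obtain ⟨p, hp1, hp2, hp3⟩ : ∃ p, 1 ≤ p ∧ p ≤ gg ∧ p ≡ l [MOD gg] := by
    refine ⟨(l + gg - 1) % gg + 1, by omega, ?_, ?_⟩
    · have := Nat.mod_lt (l + gg - 1) (show 0 < gg by omega)
      omega
    · have e1 : (l + gg - 1) % gg ≡ l + gg - 1 [MOD gg] := Nat.mod_modEq _ _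
      have e2 := e1.add_right 1
      have e3 : l + gg - 1 + 1 = l + gg := by omega
      rw [e3] at e2
      exact e2.trans (by
        unfold Nat.ModEq
        rw [Nat.add_mod_right])
  rw [hgg] at hp3
  obtain ⟨w, r, h6, h7, h8, h9, h10⟩ := h5 p (by omega) hp3
  have hr : r ≠ .nil := by
    rintro rfl
    have : pkn (.nil : BinaryTree Unit) = 0 := rfl
    omega
  have hrY : ∀ x ∈ cont r, Y + 1 ≤ x := by
    intro x hx
    have e1 : x + (C + 1) ∈ cont z.1 := by
      rw [h10]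
      exact Multiset.mem_cons_of_mem (Multiset.mem_cons_of_mem (Multiset.mem_map_of_mem _ hx))
    have e2 := cont_pos r x hx
    have e3 := hbm _ e1 (by omega)
    omega
  have hBF : BW.BF C (EB.mk C r p) := BW.BF_mk hC p r hp1 hr (fun x hx => by
    have := hrY x hx
    omega)
  have hch : pc (Y + 1 + (C + 1)) = H1.ch (q + 3) := by rw [H1.ch_eq, hq]
  have hw : w.1 = app (EB.mk C r p) (H1.ch (q + 3)) := by rw [h7, hch]
  refine ⟨_, _, _, w, NodeBw.of (k := k) (q := q) hC hBF (by omega) ?_ ?_, h6, hw⟩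
  · intro x hx
    have e1 : x ∈ cont w.1 := by
      rw [hw, cont_app]
      exact Multiset.mem_add.2 (Or.inl hx)
    rw [← cont_same h6] at e1
    by_cases hx1 : x = C + 1
    · exact Or.inl hx1
    · right
      rw [hq]
      exact hbm x e1 hx1
  · have e1 := X_num w
    rw [hw, num_app, H1.ch_num] at e1
    omega

/-- **three solitons** `(m + c, b, c)`, `b = Y + 1 + c ≤ m + c`: every gap `p ∈ [1, m] ∪ [m + 2, 2 m - 2]` -/
theorem NodeBw.three {C Y m p q : ℕ} (hC : 1 ≤ C) (hm : Y + 1 ≤ m) (hp : (1 ≤ p ∧ p ≤ m) ∨ (m + 2 ≤ p ∧ p + 2 ≤ 2 * m))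
    (hq : q + 3 = Y + 1 + (C + 1)) (hk : m + (C + 1) + (C + 1) + (q + 3) = k) :
    NodeBw k (C + 1) q (EB.mk C (pc m) p) (Tsq.sq (EB.mk C (pc m) p)).2 (Tsq.sq (EB.mk C (pc m) p)).1 := by
  have hp2 : p ≤ 2 * (pc m).numNodes := by
    rw [pc_num]
    omega
  obtain ⟨m', rfl⟩ : ∃ m', m = m' + 1 := ⟨m - 1, by omega⟩
  have hcm : cont (EB.mk C (pc (m' + 1)) p) = {m' + 1 + (C + 1)} + {C + 1} := by
    rw [BW.cont_mk C _ p hp2, cont_pc]
    rfl
  have hBF : BW.BF C (EB.mk C (pc (m' + 1)) p) := by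
    rcases hp with hp | hp
    · apply BW.BF_mk hC p _ hp.1 (by simp [pc])
      intro x hx
      rw [cont_pc, Multiset.mem_singleton] at hx
      omega
    · have h1 := BW.BF_mk3 hC (2 * (m' + 1) - p) (p - (m' + 1)) (by omega) (by omega)
      have e1 : p - (m' + 1) + (2 * (m' + 1) - p) = m' + 1 := by omega
      have e2 : 2 * (p - (m' + 1)) + (2 * (m' + 1) - p) = p := by omega
      rw [e1, e2, H1.ch_eq] at h1
      exact h1
  refine NodeBw.of hC hBF (by omega) ?_ ?_
  · intro x hx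
    rw [hcm, Multiset.mem_add, Multiset.mem_singleton, Multiset.mem_singleton] at hx
    omega
  · have e1 := cont_sum (EB.mk C (pc (m' + 1)) p)
    rw [hcm] at e1
    simp only [Multiset.sum_add, Multiset.sum_singleton] at e1
    omega

/-- **existence of the group**: every T-cycle with a unique smallest part `c ≥ 2` and at least three solitons -/
theorem TyBw.exists_all (z : X k) {C Y : ℕ} (hC : 1 ≤ C) (hmin : ∀ x ∈ cont z.1, C + 1 ≤ x)
    (hc : (cont z.1).count (C + 1) = 1) (hb : Y + 1 + (C + 1) ∈ cont z.1)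
    (hbm : ∀ x ∈ cont z.1, x ≠ C + 1 → Y + 1 + (C + 1) ≤ x) (h3 : 3 ≤ pkn z.1) :
    ∃ g : DG k, TyBw {cyc z} g := by
  obtain ⟨q, hq⟩ : ∃ q, q + 3 = Y + 1 + (C + 1) := ⟨Y + 1 + (C + 1) - 3, by omega⟩
  obtain ⟨R, B, S, w, h1, h2, h4⟩ := NodeBw.exi z hC hq hmin hc hb hbm h3
  obtain ⟨g, h5, _⟩ := TyBw.ex h1 w h4
  refine ⟨g, ?_⟩
  have e : cyc z = cyc w := Quotient.sound h2
  rw [e]
  exact h5

end Pool.OddHC
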