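import Pool.Agent.Work.MP_8f87b2_h69w.BwE

/-!
# MP_8f87b2_co: the INNER words of the B-window (`c = 3`) against the E-triples: none
-/

set_option autoImplicit false

namespace Pool.OddHC

open Finset Equiv BinaryTree Pool.Agent.Work.MP_8f87b2_co HM

variable {k : ℕ} {F F' : Set (Cyc k)} {g g' : DG k}

/-- **row I-Bw-E** -/
theorem NodeBw.inner_E {q : ℕ} {R B S : BinaryTree Unit} (h : NodeBw k 3 q R B S) (w0 : X k) {i : ℕ} (hi : i ∈ [0, 1, 3, 6, 8, 9]) (h' : TyE F' g') :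
    TT (H1.wX R B S q w0 i) ∉ g'.B := by
  have hi' : i < 20 := by
    simp only [List.mem_cons, List.not_mem_nil, or_false] at hi
    omega
  obtain ⟨u, v, h1⟩ := h.fm
  have hq := h.q1 (le_refl 3)
  have htop := h.top
  obtain ⟨a, b, h2⟩ := BW.FMV_W (q := q) (B := B) (S := S) h1 (by rw [H1.ht_eq]; exact htop) i hi
  rw [← h.word w0 hi'] at h2
  obtain ⟨j, r, f, hj, hr, ht⟩ := h'
  have hk : 4 < k := by
    have := h.size
    have := H1.ht_le_nm R
    omega
  have h4 : 4 ≤ OddHC.ht (H1.wX R B S q w0 i).1 := by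
    rw [h.word w0 hi']
    simp only [List.mem_cons, List.not_mem_nil, or_false] at hi
    rcases hi with rfl | rfl | rfl | rfl | rfl | rfl <;>
      simp only [H1.W, ht_app, ht_node] <;> omega
  have h5 : 1 ≤ (cont (H1.wX R B S q w0 i).1).count 3 := by
    rw [h.word w0 hi']
    refine le_trans ?_ (H1.count_W (x := 3) (by omega) i hi)
    rw [h.one]
  obtain ⟨c1, c2, c3⟩ := h2.inner_E hk h4 (r := r.1) (e := lf f)
    (by rw [lf_length, X_num]) hr (Or.inr h5)
  intro hw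
  rcases ht.words _ hw with e | ⟨_, e | e⟩
  · exact c1 e
  · exact c2 e
  · exact c3 e

/-- **row I-Bw-E** for the type -/
theorem TyBw3.inner_E (h : TyBw3 F g) (h' : TyE F' g') : ∃ (q : ℕ) (R B S : BinaryTree Unit) (w0 : X k),
    NodeBw k 3 q R B S ∧ F = {cyc (H1.wX R B S q w0 0)} ∧ g = gad20 (H1.wX R B S q w0) ∧
      ∀ i ∈ [0, 1, 3, 6, 8, 9], TT (H1.wX R B S q w0 i) ∉ g'.B := by
  obtain ⟨q, R, B, S, w0, h1, hne, h2, h3⟩ := h
  exact ⟨q, R, B, S, w0, h1, h2, h3, fun i hi => h1.inner_E w0 hi h'⟩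

end Pool.OddHC
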