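import Pool.Agent.Work.MP_8f87b2_h71.H1Gen
import Pool.Agent.Work.MP_8f87b2_h60.A0Gad

/-!
# MP_8f87b2_co: right windows over words without part 1, injectivity of the twenty words

`W R (ch (q + 1)) B S i`, no part 1 in `R`, `B`, `S`, `q + 3 ≤ ht R = ht S`: the words `≠ 0, 10` are pairwise different.
-/

set_option autoImplicit false

namespace Pool.OddHC

namespace BW

open BinaryTree H1

/-- number of beads among the components -/
def nb : BinaryTree Unit → ℕ
  | .nil => 0
  | .node _ A X => (if isNil A = true then 1 else 0) + nb X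

theorem nb_nil : nb .nil = 0 := rfl

theorem nb_node (A X : BinaryTree Unit) : nb (A △ X) = (if isNil A = true then 1 else 0) + nb X := rfl

theorem nb_app (P Q : BinaryTree Unit) : nb (app P Q) = nb P + nb Q := by
  induction P with
  | nil => simp [app, nb]
  | node _ A X _ ih => rw [app, nb_node, nb_node, ih]; omega

/-- no part `1` -/
def nv : BinaryTree Unit → Prop
  | .nil => True
  | .node _ A X => (A = .nil △ .nil ∨ (A ≠ .nil ∧ nv A)) ∧ nv X

/-- the inside of a component of a word without part `1` -/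
def ig (A : BinaryTree Unit) : Prop := A = .nil △ .nil ∨ (A ≠ .nil ∧ nv A)

theorem ig_ne {A : BinaryTree Unit} (h : ig A) : A ≠ .nil := by
  rcases h with rfl | h
  · simp
  · exact h.1

theorem nv_app {P Q : BinaryTree Unit} : nv (app P Q) ↔ nv P ∧ nv Q := by
  induction P with
  | nil => simp [app, nv]
  | node _ A B _ ih => rw [app, nv, ih, nv, and_assoc]

theorem cont_one {A : BinaryTree Unit} (h : cont A = {1}) : A = .nil △ .nil := by
  have hn := cont_sum A
  rw [h, Multiset.sum_singleton] at hn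
  cases A with
  | nil => simp [BinaryTree.numNodes] at hn
  | node _ C D =>
    change 1 = C.numNodes + D.numNodes + 1 at hn
    cases C with
    | nil =>
      cases D with
      | nil => rfl
      | node _ _ _ => simp [BinaryTree.numNodes] at hn
    | node _ _ _ => simp [BinaryTree.numNodes] at hn

/-- all parts at least 2 -/
theorem nv_of_cont : ∀ {t : BinaryTree Unit}, (∀ x ∈ cont t, 2 ≤ x) → nv t := by
  intro t
  induction t with
  | nil => intro _; trivial
  | node u A C ihA ihC =>
    intro h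
    have h' : ∀ x ∈ raise (cont A) + cont C, 2 ≤ x := h
    have h1 : ∀ x ∈ raise (cont A), 2 ≤ x := fun x hx => h' x (Multiset.mem_add.2 (Or.inl hx))
    have h2 : ∀ x ∈ cont C, 2 ≤ x := fun x hx => h' x (Multiset.mem_add.2 (Or.inr hx))
    refine ⟨?_, ihC h2⟩
    have h3 : 2 ≤ (cont A).sup + 1 := h1 _ (by unfold raise; exact Multiset.mem_cons_self _ _)
    have hA0 : A ≠ .nil := by
      rintro rfl
      rw [cont_nil, Multiset.sup_zero] at h3
      simp at h3
    have hc0 : cont A ≠ 0 := fun h4 => hA0 (cont_eq_zero.1 h4)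
    have h4 : ∀ x ∈ (cont A).erase (cont A).sup, 2 ≤ x := fun x hx =>
      h1 x (by unfold raise; exact Multiset.mem_cons_of_mem hx)
    rcases Nat.lt_or_ge (cont A).sup 2 with h5 | h5
    · left
      have h6 : (cont A).sup = 1 := by omega
      have h7 : (cont A).erase (cont A).sup = 0 := by
        rw [Multiset.eq_zero_iff_forall_notMem]
        intro x hx
        have h8 := h4 x hx
        have h9 := Multiset.le_sup (Multiset.mem_of_mem_erase hx)
        omega
      have h8 := Multiset.cons_erase (sup_mem hc0)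
      rw [h7, h6] at h8
      exact cont_one h8.symm
    · right
      refine ⟨hA0, ihA ?_⟩
      intro x hx
      by_cases hx1 : x = (cont A).sup
      · omega
      · exact h4 x ((Multiset.mem_erase_of_ne hx1).2 hx)

theorem nb_nv {P : BinaryTree Unit} (h : nv P) : nb P = 0 := by
  induction P with
  | nil => rfl
  | node _ A X _ ih =>
    have h1 := ig_ne h.1
    rw [nb_node, isNil_f.2 h1, ih h.2]
    rfl

theorem nv_last {A : BinaryTree Unit} (h : nv A) : lastB A = false := by
  induction A with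
  | nil => rfl
  | node _ A X _ ihX =>
    cases X with
    | nil =>
      rw [lastB_one, isNil_f]
      exact ig_ne h.1
    | node _ C D =>
      rw [lastB_cons (by simp)]
      exact ihX h.2

theorem nb_ch (q : ℕ) : nb (ch (q + 2)) = 0 := by
  rw [ch_succ, nb_node, isNil_f.2 (by rw [ch_succ]; simp), nb_nil]
  rfl

theorem len_node (A X : BinaryTree Unit) : len (A △ X) = len X + 1 := by
  rw [len]

/-- the part before the first bead -/
theorem split_bead : ∀ {P P' X X' : BinaryTree Unit}, nb P = 0 → nb P' = 0 →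
    app P (.nil △ X) = app P' (.nil △ X') → P = P' ∧ X = X' := by
  intro P
  induction P with
  | nil =>
    intro P' X X' _ h e
    cases P' with
    | nil => exact ⟨rfl, (node_inj e).2⟩
    | node _ A Y =>
      exfalso
      have h1 := (node_inj (B := X) (B' := app Y (.nil △ X')) e).1
      rw [nb_node, ← h1] at h
      simp [isNil] at h
  | node _ A Y _ ih =>
    intro P' X X' h h' e
    cases P' with
    | nil =>
      exfalso
      have h1 := (node_inj (B := app Y (.nil △ X)) (B' := X') e).1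
      rw [nb_node, h1] at h
      simp [isNil] at h
    | node _ A' Y' =>
      obtain ⟨h1, h2⟩ := node_inj (B := app Y (.nil △ X)) (B' := app Y' (.nil △ X')) e
      rw [nb_node] at h h'
      obtain ⟨h3, h4⟩ := ih (by omega) (by omega) h2
      subst h1; subst h3
      exact ⟨rfl, h4⟩

theorem aQ (q : ℕ) (X : BinaryTree Unit) : app (ch (q + 1)) X = ch q △ X := by
  rw [ch_succ]
  rfl

theorem len_ch (q : ℕ) : len (ch (q + 1)) = 1 := by
  rw [ch_succ, len_node]
  rfl

/-- the inside of a component: one component, or no beads -/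
theorem nb_ig {A : BinaryTree Unit} (h : ig A) : len A ≤ 1 ∨ nb A = 0 := by
  rcases h with rfl | ⟨_, h⟩
  · left
    exact le_refl 1
  · exact Or.inr (nb_nv h)

theorem ig_lastI {P : BinaryTree Unit} (h : nv P) (h0 : P ≠ .nil) : ig (lastI P) := by
  induction P with
  | nil => exact absurd rfl h0
  | node _ A X _ ih =>
    cases X with
    | nil => exact h.1
    | node _ C D =>
      rw [lastI_cons (by simp)]
      exact ih h.2 (by simp)

theorem len0 {P : BinaryTree Unit} (h : len P = 0) : P = .nil := by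
  by_contra h0
  have := len_pos h0
  omega

/-- data for the injectivity -/
structure Nj (q : ℕ) (R B S : BinaryTree Unit) : Prop where
  hR : nv R
  hB : nv B
  hS : nv S
  top : q + 4 ≤ ht R
  htS : ht S = ht R

variable {q : ℕ} {R B S : BinaryTree Unit}

theorem Nj.nR (h : Nj q R B S) : R ≠ .nil := by
  rintro rfl
  have := h.top
  rw [ht] at this
  omega

theorem Nj.nS (h : Nj q R B S) : S ≠ .nil := by
  rintro rfl
  have := h.top
  have h1 := h.htS
  rw [ht] at h1
  omega

theorem Nj.Rch (h : Nj q R B S) {m : ℕ} (hm : m ≤ q + 3) : R ≠ ch m := by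
  intro e
  have h1 := congrArg ht e
  rw [ch_ht] at h1
  have := h.top
  omega

theorem Nj.Sch (h : Nj q R B S) {m : ℕ} (hm : m ≤ q + 3) : S ≠ ch m := by
  intro e
  have h1 := congrArg ht e
  rw [ch_ht] at h1
  have := h.top
  have := h.htS
  omega

theorem node_size {A X : BinaryTree Unit} (e : A = A △ X) : False := by
  have h1 := congrArg BinaryTree.numNodes e
  have h2 : (A △ X).numNodes = A.numNodes + X.numNodes + 1 := rfl
  omega

/-- the number of beads of the word `i`; `b = 1` if `B = nil` -/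
def nbT (b : ℕ) : ℕ → ℕ
  | 1 => 2
  | 2 => 2
  | 5 => 1
  | 8 => 1
  | 11 => 2
  | 12 => 1
  | 16 => b
  | 18 => b + 1
  | _ => 0

/-- the number of components of the word `i` -/
def lenT (r s b : ℕ) : ℕ → ℕ
  | 0 => r + 1
  | 1 => r + 3
  | 2 => r + 3
  | 3 => 1
  | 4 => r + 1
  | 5 => r + 2
  | 6 => 2
  | 7 => 2
  | 8 => 3
  | 9 => 2
  | 10 => b + s + 1
  | 11 => b + s + 3
  | 12 => b + 3
  | 13 => s + 1
  | 14 => b + 1
  | 15 => b + 2
  | 16 => s + 2
  | 17 => 2
  | 18 => s + 3
  | _ => 2

section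
variable (h : Nj q R B S)
include h

theorem Nj.bR : nb R = 0 := nb_nv h.hR
theorem Nj.bS : nb S = 0 := nb_nv h.hS
theorem Nj.bB : nb B = 0 := nb_nv h.hB

theorem Nj.fS {A X Y : BinaryTree Unit} (e : app S Y = A △ X) : ig A := by
  obtain ⟨C, Z, hs⟩ : ∃ C Z, S = C △ Z := by
    cases hs : S with
    | nil => exact absurd hs h.nS
    | node _ C Z => exact ⟨C, Z, rfl⟩
  have hS := h.hS
  rw [hs] at e hS
  have h1 := (node_inj (B := app Z Y) (B' := X) e).1
  exact h1 ▸ hS.1

theorem Nj.fR {A X Y : BinaryTree Unit} (e : app R Y = A △ X) : ig A := by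
  obtain ⟨C, Z, hs⟩ : ∃ C Z, R = C △ Z := by
    cases hs : R with
    | nil => exact absurd hs h.nR
    | node _ C Z => exact ⟨C, Z, rfl⟩
  have hS := h.hR
  rw [hs] at e hS
  have h1 := (node_inj (B := app Z Y) (B' := X) e).1
  exact h1 ▸ hS.1

theorem Nj.nbW {b : ℕ} (hb : b = if isNil B = true then 1 else 0) : ∀ i < 20,
    nb (W R (ch (q + 2)) B S i) = nbT b i := by
  have N : isNil BinaryTree.nil = true := rfl
  have Nq : isNil (ch (q + 1)) = false := by rw [ch_succ]; rfl
  have Nq2 : isNil (ch (q + 2)) = false := by rw [ch_succ]; rfl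
  have NR : isNil R = false := isNil_f.2 h.nR
  have NS : isNil S = false := isNil_f.2 h.nS
  have N1 : ∀ A X : BinaryTree Unit, isNil (A △ X) = false := fun _ _ => rfl
  have N2 : ∀ (P A X : BinaryTree Unit), isNil (app P (A △ X)) = false := by
    intro P A X
    exact isNil_f.2 (app_ne (by simp))
  have bQ := nb_ch q
  intro i hi
  interval_cases i <;> simp only [W, nb_app, nb_node, nb_nil, N, Nq, Nq2, NR, NS, N1, N2, h.bR, h.bS, h.bB, bQ,
    if_true, Bool.false_eq_true, if_false, nbT, ← hb] <;> omega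

theorem Nj.lenW : ∀ i < 20,
    len (W R (ch (q + 2)) B S i) = lenT (len R) (len S) (len B) i := by
  have lQ := len_ch (q + 1)
  have l0 : len .nil = 0 := rfl
  intro i hi
  interval_cases i <;> simp only [W, len_app, len_node, lQ, l0, lenT] <;> omega

/-- a bead after `[q + 2]` is not in a word without beads -/
theorem Nj.qb {A X : BinaryTree Unit} (hA : nb A = 0) (e : app (ch (q + 2)) (.nil △ X) = A) : False := by
  have h1 := congrArg nb e
  have N : isNil BinaryTree.nil = true := rfl
  rw [nb_app, nb_node, hA, N, if_pos rfl] at h1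
  omega

theorem Nj.qi {A X : BinaryTree Unit} (hA : ig A) (e : app (ch (q + 2)) (.nil △ X) = A) : False := by
  rcases nb_ig hA with h1 | h1
  · have h2 := congrArg len e
    rw [len_app, len_node, len_ch] at h2
    omega
  · exact h.qb h1 e

omit h in
theorem qlen {m : ℕ} {X : BinaryTree Unit} (e : app (ch (q + 2)) (.nil △ X) = ch (m + 1)) : False := by
  have h1 := congrArg len e
  rw [len_app, len_node, len_ch, len_ch] at h1
  omega

omit h in
theorem blen {m : ℕ} {P Y X : BinaryTree Unit} (hX : X ≠ .nil) (e : app P (Y △ X) = ch (m + 1)) : False := by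
  have h1 := congrArg len e
  have h2 := len_pos hX
  rw [len_app, len_node, len_ch] at h1
  omega

theorem Nj.slen {m : ℕ} {Y X : BinaryTree Unit} (e : app S (Y △ X) = ch (m + 1)) : False := by
  have h1 := congrArg len e
  have h2 := len_pos h.nS
  rw [len_app, len_node, len_ch] at h1
  omega

theorem Nj.bQ : nb (ch (q + 2)) = 0 := nb_ch q

omit h in
theorem chne (m : ℕ) : ch (m + 1) ≠ .nil := by rw [ch_succ]; simp

omit h in
theorem qq1 : ch (q + 2) ≠ ch (q + 1) := fun e => by have := ch_inj e; omega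

theorem Nj.n1_2 (e : W R (ch (q + 2)) B S 1 = W R (ch (q + 2)) B S 2) : False :=
  ig_ne (h.fR (Y := .nil △ app (ch (q + 2)) (.nil △ .nil)) (X := app R (.nil △ ch (q + 2))) e) rfl

theorem Nj.n1_11 (e : W R (ch (q + 2)) B S 1 = W R (ch (q + 2)) B S 11) : False := by
  have h1 : lastB (app R (.nil △ app (ch (q + 2)) (.nil △ .nil))) =
    lastB (app B (.nil △ app (ch (q + 2)) (.nil △ S))) := congrArg lastB e
  rw [lastB_app (by simp), lastB_cons (app_ne (by simp)), lastB_app (by simp), lastB_one,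
    lastB_app (by simp), lastB_cons (app_ne (by simp)), lastB_app (by simp), lastB_cons h.nS,
    nv_last h.hS] at h1
  exact absurd h1 (by decide)

theorem Nj.n1_18 (e : W R (ch (q + 2)) B S 1 = W R (ch (q + 2)) B S 18) : False :=
  h.Rch (m := q + 2) (by omega) (split_bead (X := app (ch (q + 2)) (.nil △ .nil)) (X' := app S (B △ .nil))
    h.bR h.bQ e).1

theorem Nj.n2_11 (e : W R (ch (q + 2)) B S 2 = W R (ch (q + 2)) B S 11) : False := by
  have h1 := (split_bead (P := .nil) (X := app R (.nil △ ch (q + 2))) (X' := app (ch (q + 2)) (.nil △ S))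
    nb_nil h.bB e).2
  exact h.Rch (m := q + 2) (by omega) (split_bead h.bR h.bQ h1).1

theorem Nj.n2_18 (e : W R (ch (q + 2)) B S 2 = W R (ch (q + 2)) B S 18) : False := by
  have h1 := (split_bead (P := .nil) (X := app R (.nil △ ch (q + 2))) (X' := app S (B △ .nil))
    nb_nil h.bQ e).1
  exact chne _ h1.symm

theorem Nj.n11_18 (hB : B = .nil) (e : W R (ch (q + 2)) B S 11 = W R (ch (q + 2)) B S 18) : False := by
  have h1 := (split_bead (X := app (ch (q + 2)) (.nil △ S)) (X' := app S (B △ .nil))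
    h.bB h.bQ e).1
  rw [hB] at h1
  exact chne _ h1.symm

theorem Nj.n5_8 (e : W R (ch (q + 2)) B S 5 = W R (ch (q + 2)) B S 8) : False := by
  change ch (q + 2) △ (.nil △ R) = app (ch (q + 2)) (.nil △ (R △ .nil)) at e
  rw [aQ] at e
  exact qq1 (node_inj e).1

theorem Nj.n5_12 (e : W R (ch (q + 2)) B S 5 = W R (ch (q + 2)) B S 12) : False := by
  change ch (q + 2) △ (.nil △ R) = S △ app B (.nil △ ch (q + 2)) at e
  exact h.Sch (m := q + 2) (by omega) (node_inj e).1.symm

theorem Nj.n5_16 (hB : B = .nil) (e : W R (ch (q + 2)) B S 5 = W R (ch (q + 2)) B S 16) : False := by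
  change ch (q + 2) △ (.nil △ R) = app S (B △ (ch (q + 2) △ .nil)) at e
  rw [hB, ← aQ (q + 2)] at e
  exact h.Sch (m := q + 3) (by omega) (split_bead (nb_ch (q + 1)) h.bS e).1.symm

theorem Nj.n5_18 (e : W R (ch (q + 2)) B S 5 = W R (ch (q + 2)) B S 18) : False := by
  change ch (q + 2) △ (.nil △ R) = app (ch (q + 2)) (.nil △ app S (B △ .nil)) at e
  rw [aQ] at e
  exact qq1 (node_inj e).1

theorem Nj.n8_12 (e : W R (ch (q + 2)) B S 8 = W R (ch (q + 2)) B S 12) : False := by
  change app (ch (q + 2)) (.nil △ (R △ .nil)) = S △ app B (.nil △ ch (q + 2)) at e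
  rw [aQ] at e
  exact h.Sch (m := q + 1) (by omega) (node_inj e).1.symm

theorem Nj.n8_16 (hB : B = .nil) (e : W R (ch (q + 2)) B S 8 = W R (ch (q + 2)) B S 16) : False := by
  change app (ch (q + 2)) (.nil △ (R △ .nil)) = app S (B △ (ch (q + 2) △ .nil)) at e
  rw [hB] at e
  exact h.Sch (m := q + 2) (by omega) (split_bead h.bQ h.bS e).1.symm

theorem Nj.n12_16 (hB : B = .nil) (e : W R (ch (q + 2)) B S 12 = W R (ch (q + 2)) B S 16) : False := by
  change S △ app B (.nil △ ch (q + 2)) = app S (B △ (ch (q + 2) △ .nil)) at e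
  rw [hB] at e
  have N : isNil S = false := isNil_f.2 h.nS
  have h1 := split_bead (P := S △ .nil) (X := ch (q + 2)) (X' := ch (q + 2) △ .nil)
    (by rw [nb_node, N]; rfl) h.bS e
  exact node_size h1.1.symm

theorem Nj.n12_18 (e : W R (ch (q + 2)) B S 12 = W R (ch (q + 2)) B S 18) : False := by
  change S △ app B (.nil △ ch (q + 2)) = app (ch (q + 2)) (.nil △ app S (B △ .nil)) at e
  rw [aQ] at e
  exact h.Sch (m := q + 1) (by omega) (node_inj e).1

theorem Nj.n3_14 (e : W R (ch (q + 2)) B S 3 = W R (ch (q + 2)) B S 14) : False := by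
  change app R (.nil △ ch (q + 2)) △ .nil = app (ch (q + 2)) (.nil △ S) △ B at e
  exact h.Rch (m := q + 2) (by omega) (split_bead h.bR h.bQ (node_inj e).1).1

theorem Nj.n4_6 (e : W R (ch (q + 2)) B S 4 = W R (ch (q + 2)) B S 6) : False := by
  change app (ch (q + 2)) (.nil △ .nil) △ R = R △ (ch (q + 2) △ .nil) at e
  exact h.qb h.bR (node_inj e).1

theorem Nj.n4_7 (e : W R (ch (q + 2)) B S 4 = W R (ch (q + 2)) B S 7) : False := by
  change app (ch (q + 2)) (.nil △ .nil) △ R = app (ch (q + 2)) ((.nil △ R) △ .nil) at e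
  rw [aQ (q + 1) ((.nil △ R) △ .nil)] at e
  exact qlen (node_inj e).1

theorem Nj.n4_9 (e : W R (ch (q + 2)) B S 4 = W R (ch (q + 2)) B S 9) : False := by
  change app (ch (q + 2)) (.nil △ .nil) △ R = (R △ .nil) △ ch (q + 2) at e
  have h1 := congrArg len (node_inj e).1
  have l0 : len .nil = 0 := rfl
  rw [len_app, len_node, len_node, len_ch, l0] at h1
  omega

theorem Nj.n4_13 (e : W R (ch (q + 2)) B S 4 = W R (ch (q + 2)) B S 13) : False := by
  change app (ch (q + 2)) (.nil △ .nil) △ R = app S (app B (.nil △ ch (q + 2)) △ .nil) at e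
  exact h.qi (h.fS e.symm) rfl

theorem Nj.n4_14 (e : W R (ch (q + 2)) B S 4 = W R (ch (q + 2)) B S 14) : False := by
  change app (ch (q + 2)) (.nil △ .nil) △ R = app (ch (q + 2)) (.nil △ S) △ B at e
  exact h.nS (split_bead h.bQ h.bQ (node_inj e).1).2.symm

theorem Nj.n4_15 (e : W R (ch (q + 2)) B S 4 = W R (ch (q + 2)) B S 15) : False := by
  change app (ch (q + 2)) (.nil △ .nil) △ R = ch (q + 2) △ (S △ B) at e
  exact qlen (node_inj e).1

theorem Nj.n4_16 (e : W R (ch (q + 2)) B S 4 = W R (ch (q + 2)) B S 16) : False := by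
  change app (ch (q + 2)) (.nil △ .nil) △ R = app S (B △ (ch (q + 2) △ .nil)) at e
  exact h.qi (h.fS e.symm) rfl

theorem Nj.n4_17 (e : W R (ch (q + 2)) B S 4 = W R (ch (q + 2)) B S 17) : False := by
  change app (ch (q + 2)) (.nil △ .nil) △ R = app (ch (q + 2)) ((S △ B) △ .nil) at e
  rw [aQ (q + 1) ((S △ B) △ .nil)] at e
  exact qlen (node_inj e).1

theorem Nj.n4_19 (e : W R (ch (q + 2)) B S 4 = W R (ch (q + 2)) B S 19) : False := by
  change app (ch (q + 2)) (.nil △ .nil) △ R = app S (B △ .nil) △ ch (q + 2) at e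
  exact h.Sch (m := q + 2) (by omega) (app_snoc (node_inj e).1).1.symm

theorem Nj.n6_7 (e : W R (ch (q + 2)) B S 6 = W R (ch (q + 2)) B S 7) : False := by
  change R △ (ch (q + 2) △ .nil) = app (ch (q + 2)) ((.nil △ R) △ .nil) at e
  rw [aQ (q + 1)] at e
  exact h.Rch (m := q + 1) (by omega) (node_inj e).1

theorem Nj.n6_9 (e : W R (ch (q + 2)) B S 6 = W R (ch (q + 2)) B S 9) : False := by
  change R △ (ch (q + 2) △ .nil) = (R △ .nil) △ ch (q + 2) at e
  exact node_size (node_inj e).1

theorem Nj.n6_13 (e : W R (ch (q + 2)) B S 6 = W R (ch (q + 2)) B S 13) : False := by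
  change app (R △ .nil) (ch (q + 2) △ .nil) = app S (app B (.nil △ ch (q + 2)) △ .nil) at e
  exact blen (chne _) (app_snoc e).2.symm

theorem Nj.n6_14 (e : W R (ch (q + 2)) B S 6 = W R (ch (q + 2)) B S 14) : False := by
  change R △ (ch (q + 2) △ .nil) = app (ch (q + 2)) (.nil △ S) △ B at e
  exact h.qb h.bR (node_inj e).1.symm

theorem Nj.n6_15 (e : W R (ch (q + 2)) B S 6 = W R (ch (q + 2)) B S 15) : False := by
  change R △ (ch (q + 2) △ .nil) = ch (q + 2) △ (S △ B) at e
  exact h.Rch (m := q + 2) (by omega) (node_inj e).1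

theorem Nj.n6_17 (e : W R (ch (q + 2)) B S 6 = W R (ch (q + 2)) B S 17) : False := by
  change R △ (ch (q + 2) △ .nil) = app (ch (q + 2)) ((S △ B) △ .nil) at e
  rw [aQ (q + 1)] at e
  exact h.Rch (m := q + 1) (by omega) (node_inj e).1

theorem Nj.n6_19 (e : W R (ch (q + 2)) B S 6 = W R (ch (q + 2)) B S 19) : False := by
  change R △ (ch (q + 2) △ .nil) = app S (B △ .nil) △ ch (q + 2) at e
  exact node_size (node_inj e).2.symm

theorem Nj.n7_9 (e : W R (ch (q + 2)) B S 7 = W R (ch (q + 2)) B S 9) : False := by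
  change app (ch (q + 2)) ((.nil △ R) △ .nil) = (R △ .nil) △ ch (q + 2) at e
  rw [aQ (q + 1)] at e
  have h1 := (node_inj e).1
  rw [ch_succ] at h1
  exact h.Rch (m := q) (by omega) (node_inj h1).1.symm

theorem Nj.n7_13 (e : W R (ch (q + 2)) B S 7 = W R (ch (q + 2)) B S 13) : False := by
  change app (ch (q + 2)) ((.nil △ R) △ .nil) = app S (app B (.nil △ ch (q + 2)) △ .nil) at e
  exact h.Sch (m := q + 2) (by omega) (app_snoc e).1.symm

theorem Nj.n7_14 (e : W R (ch (q + 2)) B S 7 = W R (ch (q + 2)) B S 14) : False := by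
  change app (ch (q + 2)) ((.nil △ R) △ .nil) = app (ch (q + 2)) (.nil △ S) △ B at e
  rw [aQ (q + 1) ((.nil △ R) △ .nil)] at e
  exact qlen (node_inj e).1.symm

theorem Nj.n7_15 (e : W R (ch (q + 2)) B S 7 = W R (ch (q + 2)) B S 15) : False := by
  change app (ch (q + 2)) ((.nil △ R) △ .nil) = ch (q + 2) △ (S △ B) at e
  rw [aQ (q + 1)] at e
  exact qq1 (node_inj e).1.symm

theorem Nj.n7_17 (e : W R (ch (q + 2)) B S 7 = W R (ch (q + 2)) B S 17) : False := by
  change app (ch (q + 2)) ((.nil △ R) △ .nil) = app (ch (q + 2)) ((S △ B) △ .nil) at e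
  exact h.nS (node_inj (app_snoc e).2).1.symm

theorem Nj.n7_19 (e : W R (ch (q + 2)) B S 7 = W R (ch (q + 2)) B S 19) : False := by
  change app (ch (q + 2)) ((.nil △ R) △ .nil) = app S (B △ .nil) △ ch (q + 2) at e
  rw [aQ (q + 1)] at e
  exact h.slen (node_inj e).1.symm

theorem Nj.n9_13 (e : W R (ch (q + 2)) B S 9 = W R (ch (q + 2)) B S 13) : False := by
  change (R △ .nil) △ ch (q + 2) = app S (app B (.nil △ ch (q + 2)) △ .nil) at e
  have h1 : (R △ .nil) △ ch (q + 2) = app ((R △ .nil) △ .nil) (ch (q + 1) △ .nil) := by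
    rw [ch_succ (q + 1)]; rfl
  rw [h1] at e
  exact blen (chne _) (app_snoc e).2.symm

theorem Nj.n9_14 (e : W R (ch (q + 2)) B S 9 = W R (ch (q + 2)) B S 14) : False := by
  change (R △ .nil) △ ch (q + 2) = app (ch (q + 2)) (.nil △ S) △ B at e
  have h1 := congrArg len (node_inj e).1
  have l0 : len .nil = 0 := rfl
  rw [len_app, len_node, len_node, len_ch, l0] at h1
  omega

theorem Nj.n9_15 (e : W R (ch (q + 2)) B S 9 = W R (ch (q + 2)) B S 15) : False := by
  change (R △ .nil) △ ch (q + 2) = ch (q + 2) △ (S △ B) at e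
  have h1 := (node_inj e).1
  rw [ch_succ] at h1
  exact h.Rch (m := q + 1) (by omega) (node_inj h1).1

theorem Nj.n9_17 (e : W R (ch (q + 2)) B S 9 = W R (ch (q + 2)) B S 17) : False := by
  change (R △ .nil) △ ch (q + 2) = app (ch (q + 2)) ((S △ B) △ .nil) at e
  rw [aQ (q + 1)] at e
  have h1 := (node_inj e).1
  rw [ch_succ] at h1
  exact h.Rch (m := q) (by omega) (node_inj h1).1

theorem Nj.n9_19 (e : W R (ch (q + 2)) B S 9 = W R (ch (q + 2)) B S 19) : False := by
  change (R △ .nil) △ ch (q + 2) = app S (B △ .nil) △ ch (q + 2) at e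
  have h1 := congrArg len (node_inj e).1
  have l0 : len .nil = 0 := rfl
  have h2 := len_pos h.nS
  rw [len_app, len_node, len_node, l0] at h1
  omega

theorem Nj.n13_14 (e : W R (ch (q + 2)) B S 13 = W R (ch (q + 2)) B S 14) : False := by
  change app S (app B (.nil △ ch (q + 2)) △ .nil) = app (ch (q + 2)) (.nil △ S) △ B at e
  exact h.qi (h.fS e) rfl

theorem Nj.n13_15 (e : W R (ch (q + 2)) B S 13 = W R (ch (q + 2)) B S 15) : False := by
  change app S (app B (.nil △ ch (q + 2)) △ .nil) = ch (q + 2) △ (S △ B) at e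
  have h1 := congrArg lastI e
  rw [lastI_app (by simp), lastI_one, lastI_cons (by simp)] at h1
  have N : isNil BinaryTree.nil = true := rfl
  have h3 : 1 ≤ nb (app B (.nil △ ch (q + 2))) := by
    rw [nb_app, nb_node, N, if_pos rfl]
    omega
  have h4 : 2 ≤ len (app B (.nil △ ch (q + 2))) := by
    rw [len_app, len_node, len_ch]
    omega
  by_cases hB : B = .nil
  · rw [h1, hB, lastI_one, h.bS] at h3
    omega
  · rw [lastI_cons hB] at h1
    rcases nb_ig (ig_lastI h.hB hB) with h2 | h2 <;> rw [← h1] at h2 <;> omega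

theorem Nj.n13_17 (e : W R (ch (q + 2)) B S 13 = W R (ch (q + 2)) B S 17) : False := by
  change app S (app B (.nil △ ch (q + 2)) △ .nil) = app (ch (q + 2)) ((S △ B) △ .nil) at e
  exact h.Sch (m := q + 2) (by omega) (app_snoc e).1

theorem Nj.n13_19 (e : W R (ch (q + 2)) B S 13 = W R (ch (q + 2)) B S 19) : False := by
  change app S (app B (.nil △ ch (q + 2)) △ .nil) = app S (B △ .nil) △ ch (q + 2) at e
  have h1 : app S (B △ .nil) △ ch (q + 2) = app (app S (B △ .nil) △ .nil) (ch (q + 1) △ .nil) := by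
    rw [ch_succ (q + 1)]; rfl
  rw [h1] at e
  exact blen (chne _) (app_snoc e).2

theorem Nj.n14_16 (e : W R (ch (q + 2)) B S 14 = W R (ch (q + 2)) B S 16) : False := by
  change app (ch (q + 2)) (.nil △ S) △ B = app S (B △ (ch (q + 2) △ .nil)) at e
  exact h.qi (h.fS e.symm) rfl

theorem Nj.n14_17 (e : W R (ch (q + 2)) B S 14 = W R (ch (q + 2)) B S 17) : False := by
  change app (ch (q + 2)) (.nil △ S) △ B = app (ch (q + 2)) ((S △ B) △ .nil) at e
  rw [aQ (q + 1) ((S △ B) △ .nil)] at e
  exact qlen (node_inj e).1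

theorem Nj.n14_19 (e : W R (ch (q + 2)) B S 14 = W R (ch (q + 2)) B S 19) : False := by
  change app (ch (q + 2)) (.nil △ S) △ B = app S (B △ .nil) △ ch (q + 2) at e
  have h1 := (node_inj e).1
  have h2 := congrArg lastB h1
  rw [lastB_app (by simp), lastB_cons h.nS, nv_last h.hS, lastB_app (by simp), lastB_one] at h2
  have h3 := congrArg nb h1
  have N : isNil BinaryTree.nil = true := rfl
  rw [nb_app, nb_app, nb_node, nb_node, h.bQ, h.bS, N, ← h2, nb_nil, if_pos rfl] at h3
  exact absurd h3 (by decide)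

theorem Nj.n15_16 (e : W R (ch (q + 2)) B S 15 = W R (ch (q + 2)) B S 16) : False := by
  change ch (q + 2) △ (S △ B) = app S (B △ (ch (q + 2) △ .nil)) at e
  obtain ⟨A, S', hs⟩ : ∃ A S', S = A △ S' := by
    cases hs : S with
    | nil => exact absurd hs h.nS
    | node _ A S' => exact ⟨A, S', rfl⟩
  have e1 : ch (q + 2) △ (S △ B) = A △ app S' (B △ (ch (q + 2) △ .nil)) := by
    rw [e, hs]; rfl
  obtain ⟨h1, h2⟩ := node_inj e1
  cases hs' : S' with
  | nil =>
    apply h.Sch (m := q + 3) (by omega)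
    rw [hs, hs', ← h1]
    rfl
  | node _ C D =>
    rw [hs'] at h2
    have h3 := (node_inj (B := B) (B' := app D (B △ (ch (q + 2) △ .nil))) h2).1
    have h4 := congrArg BinaryTree.numNodes hs
    rw [hs'] at h4
    have h5 : (A △ (C △ D)).numNodes = A.numNodes + (C.numNodes + D.numNodes + 1) + 1 := rfl
    have h6 := congrArg BinaryTree.numNodes h3
    have h7 := h4.trans h5
    omega

theorem Nj.n15_17 (e : W R (ch (q + 2)) B S 15 = W R (ch (q + 2)) B S 17) : False := by
  change ch (q + 2) △ (S △ B) = app (ch (q + 2)) ((S △ B) △ .nil) at e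
  rw [aQ (q + 1)] at e
  exact qq1 (node_inj e).1

theorem Nj.n15_19 (e : W R (ch (q + 2)) B S 15 = W R (ch (q + 2)) B S 19) : False := by
  change ch (q + 2) △ (S △ B) = app S (B △ .nil) △ ch (q + 2) at e
  exact h.slen (node_inj e).1.symm

theorem Nj.n17_19 (e : W R (ch (q + 2)) B S 17 = W R (ch (q + 2)) B S 19) : False := by
  change app (ch (q + 2)) ((S △ B) △ .nil) = app S (B △ .nil) △ ch (q + 2) at e
  rw [aQ (q + 1)] at e
  exact h.slen (node_inj e).1.symm

/-- **the words except 0 and 10 are pairwise different** -/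
theorem Nj.ne (j : ℕ) (hj : j < 20) (i : ℕ) (hi : i < j) (i0 : i ≠ 0) (i10 : i ≠ 10) (j10 : j ≠ 10)
    (e : W R (ch (q + 2)) B S i = W R (ch (q + 2)) B S j) : False := by
  obtain ⟨b, hb⟩ : ∃ b, b = if isNil B = true then 1 else 0 := ⟨_, rfl⟩
  have hn := (h.nbW hb i (by omega)).symm.trans ((congrArg nb e).trans (h.nbW hb j hj))
  have hL := (h.lenW i (by omega)).symm.trans ((congrArg len e).trans (h.lenW j hj))
  have hr := len_pos h.nR
  have hs := len_pos h.nS
  have hBb : (b = 0 ∧ 1 ≤ len B) ∨ (b = 1 ∧ len B = 0 ∧ B = .nil) := by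
    by_cases hB : B = .nil
    · right
      rw [hb, hB]
      exact ⟨rfl, rfl, rfl⟩
    · left
      rw [hb, isNil_f.2 hB]
      exact ⟨rfl, len_pos hB⟩
  have hBn : b = 1 → B = .nil := by
    intro h1
    rcases hBb with h2 | h2
    · omega
    · exact h2.2.2
  clear hb
  interval_cases j <;> interval_cases i <;> first
    | exact i0 rfl
    | exact i10 rfl
    | exact j10 rfl
    | (simp only [nbT, lenT] at hn hL
       omega)
    | skip
  all_goals first
    | exact h.n1_2 e
    | exact h.n1_11 e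
    | exact h.n1_18 e
    | exact h.n2_11 e
    | exact h.n2_18 e
    | exact h.n11_18 (hBn (by simp only [nbT] at hn; omega)) e
    | exact h.n5_8 e
    | exact h.n5_12 e
    | exact h.n5_16 (hBn (by simp only [nbT] at hn; omega)) e
    | exact h.n5_18 e
    | exact h.n8_12 e
    | exact h.n8_16 (hBn (by simp only [nbT] at hn; omega)) e
    | exact h.n12_16 (hBn (by simp only [nbT] at hn; omega)) e
    | exact h.n12_18 e
    | exact h.n3_14 e
    | exact h.n4_6 e
    | exact h.n4_7 e
    | exact h.n4_9 e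
    | exact h.n4_13 e
    | exact h.n4_14 e
    | exact h.n4_15 e
    | exact h.n4_16 e
    | exact h.n4_17 e
    | exact h.n4_19 e
    | exact h.n6_7 e
    | exact h.n6_9 e
    | exact h.n6_13 e
    | exact h.n6_14 e
    | exact h.n6_15 e
    | exact h.n6_17 e
    | exact h.n6_19 e
    | exact h.n7_9 e
    | exact h.n7_13 e
    | exact h.n7_14 e
    | exact h.n7_15 e
    | exact h.n7_17 e
    | exact h.n7_19 e
    | exact h.n9_13 e
    | exact h.n9_14 e
    | exact h.n9_15 e
    | exact h.n9_17 e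
    | exact h.n9_19 e
    | exact h.n13_14 e
    | exact h.n13_15 e
    | exact h.n13_17 e
    | exact h.n13_19 e
    | exact h.n14_16 e
    | exact h.n14_17 e
    | exact h.n14_19 e
    | exact h.n15_16 e
    | exact h.n15_17 e
    | exact h.n15_19 e
    | exact h.n17_19 e

end

end BW

end Pool.OddHC
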