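import Pool.Agent.Work.MP_8f87b2_h69w.Inj

/-!
# MP_8f87b2_co: right windows over words without part 1, injectivity of the twenty words, `q = 0`
-/

set_option autoImplicit false

namespace Pool.OddHC

namespace BW

open BinaryTree H1

/-- data for the injectivity, `q = 0` -/
structure N0 (R B S : BinaryTree Unit) : Prop where
  hR : nv R
  hB : nv B
  hS : nv S
  top : 3 ≤ ht R
  htS : ht S = ht R

variable {R B S : BinaryTree Unit}

/-- the number of beads of the word `i`; `b = 1` if `B = nil` -/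
def nb0 (b : ℕ) : ℕ → ℕ
  | 1 => 3
  | 2 => 3
  | 5 => 1
  | 7 => 1
  | 8 => 2
  | 9 => 1
  | 11 => 3
  | 12 => 2
  | 16 => b
  | 17 => 1
  | 18 => b + 2
  | 19 => 1
  | _ => 0

section
variable (h : N0 R B S)
include h

theorem N0.nR : R ≠ .nil := by
  rintro rfl
  have := h.top
  rw [ht] at this
  omega

theorem N0.nS : S ≠ .nil := by
  rintro rfl
  have := h.top
  have h1 := h.htS
  rw [ht] at h1
  omega

theorem N0.Rch {m : ℕ} (hm : m ≤ 2) : R ≠ ch m := by
  intro e
  have h1 := congrArg ht e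
  rw [ch_ht] at h1
  have := h.top
  omega

theorem N0.Sch {m : ℕ} (hm : m ≤ 2) : S ≠ ch m := by
  intro e
  have h1 := congrArg ht e
  rw [ch_ht] at h1
  have := h.top
  have := h.htS
  omega

theorem N0.bR : nb R = 0 := nb_nv h.hR
theorem N0.bS : nb S = 0 := nb_nv h.hS
theorem N0.bB : nb B = 0 := nb_nv h.hB

theorem N0.fS {A X Y : BinaryTree Unit} (e : app S Y = A △ X) : ig A := by
  obtain ⟨C, Z, hs⟩ : ∃ C Z, S = C △ Z := by
    cases hs : S with
    | nil => exact absurd hs h.nS
    | node _ C Z => exact ⟨C, Z, rfl⟩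
  have hS := h.hS
  rw [hs] at e hS
  have h1 := (node_inj (B := app Z Y) (B' := X) e).1
  exact h1 ▸ hS.1

theorem N0.fR {A X Y : BinaryTree Unit} (e : app R Y = A △ X) : ig A := by
  obtain ⟨C, Z, hs⟩ : ∃ C Z, R = C △ Z := by
    cases hs : R with
    | nil => exact absurd hs h.nR
    | node _ C Z => exact ⟨C, Z, rfl⟩
  have hS := h.hR
  rw [hs] at e hS
  have h1 := (node_inj (B := app Z Y) (B' := X) e).1
  exact h1 ▸ hS.1

theorem N0.nbW {b : ℕ} (hb : b = if isNil B = true then 1 else 0) : ∀ i < 20,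
    nb (W R (ch 1) B S i) = nb0 b i := by
  have N : isNil BinaryTree.nil = true := rfl
  have e1 : ch 1 = BinaryTree.nil △ .nil := rfl
  have NR : isNil R = false := isNil_f.2 h.nR
  have NS : isNil S = false := isNil_f.2 h.nS
  have N1 : ∀ A X : BinaryTree Unit, isNil (A △ X) = false := fun _ _ => rfl
  have N2 : ∀ (P A X : BinaryTree Unit), isNil (app P (A △ X)) = false := by
    intro P A X
    exact isNil_f.2 (app_ne (by simp))
  intro i hi
  rw [e1]
  interval_cases i <;> simp only [W, app, nb_app, nb_node, nb_nil, N, NR, NS, N1, N2, h.bR, h.bS, h.bB,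
    if_true, Bool.false_eq_true, if_false, nb0, ← hb] <;> omega

theorem N0.lenW : ∀ i < 20,
    len (W R (ch 1) B S i) = lenT (len R) (len S) (len B) i := by
  have lQ := len_ch 0
  have l0 : len .nil = 0 := rfl
  intro i hi
  interval_cases i <;> simp only [W, len_app, len_node, lQ, l0, lenT] <;> omega

/-- an inside is not a word with two components, one of them a bead -/
theorem N0.qi {A X : BinaryTree Unit} (hA : ig A) (e : .nil △ (.nil △ X) = A) : False := by
  have N : isNil BinaryTree.nil = true := rfl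
  rcases nb_ig hA with h1 | h1
  · rw [← e, len_node, len_node] at h1
    omega
  · rw [← e, nb_node, N, if_pos rfl] at h1
    omega

theorem N0.slen {m : ℕ} {Y X : BinaryTree Unit} (e : app S (Y △ X) = ch (m + 1)) : False := by
  have h1 := congrArg len e
  have h2 := len_pos h.nS
  rw [len_app, len_node, len_ch] at h1
  omega

theorem N0.n1_2 (e : W R (ch 1) B S 1 = W R (ch 1) B S 2) : False :=
  ig_ne (h.fR (Y := .nil △ app (ch 1) (.nil △ .nil)) (X := app R (.nil △ ch 1)) e) rfl

theorem N0.n1_11 (e : W R (ch 1) B S 1 = W R (ch 1) B S 11) : False := by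
  have h1 : lastB (app R (.nil △ app (ch 1) (.nil △ .nil))) =
    lastB (app B (.nil △ app (ch 1) (.nil △ S))) := congrArg lastB e
  rw [lastB_app (by simp), lastB_cons (app_ne (by simp)), lastB_app (by simp), lastB_one,
    lastB_app (by simp), lastB_cons (app_ne (by simp)), lastB_app (by simp), lastB_cons h.nS,
    nv_last h.hS] at h1
  exact absurd h1 (by decide)

theorem N0.n1_18 (e : W R (ch 1) B S 1 = W R (ch 1) B S 18) : False :=
  ig_ne (h.fR (Y := .nil △ app (ch 1) (.nil △ .nil)) (X := .nil △ app S (B △ .nil)) e) rfl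

theorem N0.n2_11 (e : W R (ch 1) B S 2 = W R (ch 1) B S 11) : False := by
  have h1 := (split_bead (P := .nil) (X := app R (.nil △ ch 1)) (X' := app (ch 1) (.nil △ S))
    nb_nil h.bB e).2
  exact ig_ne (h.fR (Y := .nil △ ch 1) (X := .nil △ S) h1) rfl

theorem N0.n2_18 (e : W R (ch 1) B S 2 = W R (ch 1) B S 18) : False := by
  have e' : BinaryTree.nil △ app R (.nil △ ch 1) = .nil △ (.nil △ app S (B △ .nil)) := e
  exact ig_ne (h.fR (Y := .nil △ ch 1) (X := app S (B △ .nil)) (node_inj e').2) rfl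

theorem N0.n11_18 (hB : B = .nil) (e : W R (ch 1) B S 11 = W R (ch 1) B S 18) : False := by
  have e' : app B (.nil △ (.nil △ (.nil △ S))) = .nil △ (.nil △ app S (B △ .nil)) := e
  rw [hB] at e'
  have e2 : BinaryTree.nil △ S = app S (.nil △ .nil) := (node_inj (node_inj e').2).2
  exact ig_ne (h.fS e2.symm) rfl

theorem N0.n8_12 (e : W R (ch 1) B S 8 = W R (ch 1) B S 12) : False := by
  have e' : BinaryTree.nil △ (.nil △ (R △ .nil)) = S △ app B (.nil △ ch 1) := e
  exact h.nS (node_inj e').1.symm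

theorem N0.n8_18 (e : W R (ch 1) B S 8 = W R (ch 1) B S 18) : False := by
  have e' : BinaryTree.nil △ (.nil △ (R △ .nil)) = .nil △ (.nil △ app S (B △ .nil)) := e
  have h1 := congrArg len (node_inj (node_inj e').2).2
  have l0 : len .nil = 0 := rfl
  have h2 := len_pos h.nS
  rw [len_app, len_node, len_node, l0] at h1
  omega

theorem N0.n12_18 (e : W R (ch 1) B S 12 = W R (ch 1) B S 18) : False := by
  have e' : S △ app B (.nil △ ch 1) = .nil △ (.nil △ app S (B △ .nil)) := e
  exact h.nS (node_inj e').1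

theorem N0.n5_7 (e : W R (ch 1) B S 5 = W R (ch 1) B S 7) : False := by
  have e' : ch 1 △ (.nil △ R) = .nil △ ((.nil △ R) △ .nil) := e
  exact chne 0 (node_inj e').1

theorem N0.n5_9 (e : W R (ch 1) B S 5 = W R (ch 1) B S 9) : False := by
  have e' : ch 1 △ (.nil △ R) = (R △ .nil) △ ch 1 := e
  have h1 : BinaryTree.nil △ .nil = R △ .nil := (node_inj e').1
  exact h.nR (node_inj h1).1.symm

theorem N0.n5_16 (hB : B = .nil) (e : W R (ch 1) B S 5 = W R (ch 1) B S 16) : False := by
  have e' : ch 1 △ (.nil △ R) = app S (B △ (ch 1 △ .nil)) := e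
  rw [hB, ← aQ 1] at e'
  exact h.Sch (m := 2) (by omega) (split_bead (nb_ch 0) h.bS e').1.symm

theorem N0.n5_17 (e : W R (ch 1) B S 5 = W R (ch 1) B S 17) : False := by
  have e' : ch 1 △ (.nil △ R) = .nil △ ((S △ B) △ .nil) := e
  exact chne 0 (node_inj e').1

theorem N0.n5_19 (e : W R (ch 1) B S 5 = W R (ch 1) B S 19) : False := by
  have e' : ch 1 △ (.nil △ R) = app S (B △ .nil) △ ch 1 := e
  exact h.slen (node_inj e').1.symm

theorem N0.n7_9 (e : W R (ch 1) B S 7 = W R (ch 1) B S 9) : False := by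
  have e' : BinaryTree.nil △ ((.nil △ R) △ .nil) = (R △ .nil) △ ch 1 := e
  exact absurd (node_inj e').1 (by simp)

theorem N0.n7_16 (e : W R (ch 1) B S 7 = W R (ch 1) B S 16) : False := by
  have e' : BinaryTree.nil △ ((.nil △ R) △ .nil) = app S (B △ (ch 1 △ .nil)) := e
  exact ig_ne (h.fS e'.symm) rfl

theorem N0.n7_17 (e : W R (ch 1) B S 7 = W R (ch 1) B S 17) : False := by
  have e' : BinaryTree.nil △ ((.nil △ R) △ .nil) = .nil △ ((S △ B) △ .nil) := e
  exact h.nS (node_inj (node_inj (node_inj e').2).1).1.symm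

theorem N0.n7_19 (e : W R (ch 1) B S 7 = W R (ch 1) B S 19) : False := by
  have e' : BinaryTree.nil △ ((.nil △ R) △ .nil) = app S (B △ .nil) △ ch 1 := e
  exact app_ne (P := S) (Q := B △ .nil) (by simp) (node_inj e').1.symm

theorem N0.n9_17 (e : W R (ch 1) B S 9 = W R (ch 1) B S 17) : False := by
  have e' : (R △ .nil) △ ch 1 = .nil △ ((S △ B) △ .nil) := e
  exact absurd (node_inj e').1 (by simp)

theorem N0.n9_19 (e : W R (ch 1) B S 9 = W R (ch 1) B S 19) : False := by
  have e' : (R △ .nil) △ ch 1 = app S (B △ .nil) △ ch 1 := e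
  have h1 := congrArg len (node_inj e').1
  have l0 : len .nil = 0 := rfl
  have h2 := len_pos h.nS
  rw [len_app, len_node, len_node, l0] at h1
  omega

theorem N0.n17_19 (e : W R (ch 1) B S 17 = W R (ch 1) B S 19) : False := by
  have e' : BinaryTree.nil △ ((S △ B) △ .nil) = app S (B △ .nil) △ ch 1 := e
  exact app_ne (P := S) (Q := B △ .nil) (by simp) (node_inj e').1.symm

theorem N0.n3_14 (e : W R (ch 1) B S 3 = W R (ch 1) B S 14) : False := by
  have e' : app R (.nil △ ch 1) △ .nil = (.nil △ (.nil △ S)) △ B := e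
  exact ig_ne (h.fR (node_inj e').1) rfl

theorem N0.n4_6 (e : W R (ch 1) B S 4 = W R (ch 1) B S 6) : False := by
  have e' : (.nil △ (.nil △ .nil)) △ R = R △ (ch 1 △ .nil) := e
  have h1 := h.bR
  have N : isNil BinaryTree.nil = true := rfl
  rw [← (node_inj e').1, nb_node, N, if_pos rfl] at h1
  omega

theorem N0.n4_13 (e : W R (ch 1) B S 4 = W R (ch 1) B S 13) : False := by
  have e' : (.nil △ (.nil △ .nil)) △ R = app S (app B (.nil △ ch 1) △ .nil) := e
  exact h.qi (h.fS e'.symm) rfl

theorem N0.n4_14 (e : W R (ch 1) B S 4 = W R (ch 1) B S 14) : False := by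
  have e' : (.nil △ (.nil △ .nil)) △ R = (.nil △ (.nil △ S)) △ B := e
  exact h.nS (node_inj (node_inj (node_inj e').1).2).2.symm

theorem N0.n4_15 (e : W R (ch 1) B S 4 = W R (ch 1) B S 15) : False := by
  have e' : (.nil △ (.nil △ .nil)) △ R = (.nil △ .nil) △ (S △ B) := e
  exact absurd (node_inj (node_inj e').1).2 (by simp)

theorem N0.n4_16 (e : W R (ch 1) B S 4 = W R (ch 1) B S 16) : False := by
  have e' : (.nil △ (.nil △ .nil)) △ R = app S (B △ (ch 1 △ .nil)) := e
  exact h.qi (h.fS e'.symm) rfl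

theorem N0.n6_13 (e : W R (ch 1) B S 6 = W R (ch 1) B S 13) : False := by
  have e' : app (R △ .nil) (ch 1 △ .nil) = app S (app B (.nil △ ch 1) △ .nil) := e
  exact blen (chne _) (app_snoc e').2.symm

theorem N0.n6_14 (e : W R (ch 1) B S 6 = W R (ch 1) B S 14) : False := by
  have e' : R △ (ch 1 △ .nil) = (.nil △ (.nil △ S)) △ B := e
  have h1 := h.bR
  have N : isNil BinaryTree.nil = true := rfl
  rw [(node_inj e').1, nb_node, N, if_pos rfl] at h1
  omega

theorem N0.n6_15 (e : W R (ch 1) B S 6 = W R (ch 1) B S 15) : False := by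
  have e' : R △ (ch 1 △ .nil) = ch 1 △ (S △ B) := e
  exact h.Rch (m := 1) (by omega) (node_inj e').1

theorem N0.n13_14 (e : W R (ch 1) B S 13 = W R (ch 1) B S 14) : False := by
  have e' : app S (app B (.nil △ ch 1) △ .nil) = (.nil △ (.nil △ S)) △ B := e
  exact h.qi (h.fS e') rfl

theorem N0.n13_15 (e : W R (ch 1) B S 13 = W R (ch 1) B S 15) : False := by
  have e' : app S (app B (.nil △ ch 1) △ .nil) = ch 1 △ (S △ B) := e
  have h1 := congrArg lastI e'
  rw [lastI_app (by simp), lastI_one, lastI_cons (by simp)] at h1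
  have N : isNil BinaryTree.nil = true := rfl
  have h3 : 1 ≤ nb (app B (.nil △ ch 1)) := by
    rw [nb_app, nb_node, N, if_pos rfl]
    omega
  have h4 : 2 ≤ len (app B (.nil △ ch 1)) := by
    rw [len_app, len_node, len_ch]
    omega
  by_cases hB : B = .nil
  · rw [h1, hB, lastI_one, h.bS] at h3
    omega
  · rw [lastI_cons hB] at h1
    rcases nb_ig (ig_lastI h.hB hB) with h2 | h2 <;> rw [← h1] at h2 <;> omega

theorem N0.n14_16 (e : W R (ch 1) B S 14 = W R (ch 1) B S 16) : False := by
  have e' : (.nil △ (.nil △ S)) △ B = app S (B △ (ch 1 △ .nil)) := e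
  exact h.qi (h.fS e'.symm) rfl

theorem N0.n15_16 (e : W R (ch 1) B S 15 = W R (ch 1) B S 16) : False := by
  change ch 1 △ (S △ B) = app S (B △ (ch 1 △ .nil)) at e
  obtain ⟨A, S', hs⟩ : ∃ A S', S = A △ S' := by
    cases hs : S with
    | nil => exact absurd hs h.nS
    | node _ A S' => exact ⟨A, S', rfl⟩
  have e1 : ch 1 △ (S △ B) = A △ app S' (B △ (ch 1 △ .nil)) := by
    rw [e, hs]; rfl
  obtain ⟨h1, h2⟩ := node_inj e1
  cases hs' : S' with
  | nil =>
    apply h.Sch (m := 2) (by omega)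
    rw [hs, hs', ← h1]
    rfl
  | node _ C D =>
    rw [hs'] at h2
    have h3 := (node_inj (B := B) (B' := app D (B △ (ch 1 △ .nil))) h2).1
    have h4 := congrArg BinaryTree.numNodes hs
    rw [hs'] at h4
    have h5 : (A △ (C △ D)).numNodes = A.numNodes + (C.numNodes + D.numNodes + 1) + 1 := rfl
    have h6 := congrArg BinaryTree.numNodes h3
    have h7 := h4.trans h5
    omega

/-- **the words except 0 and 10 are pairwise different** -/
theorem N0.ne (j : ℕ) (hj : j < 20) (i : ℕ) (hi : i < j) (i0 : i ≠ 0) (i10 : i ≠ 10) (j10 : j ≠ 10)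
    (e : W R (ch 1) B S i = W R (ch 1) B S j) : False := by
  obtain ⟨b, hb⟩ : ∃ b, b = if isNil B = true then 1 else 0 := ⟨_, rfl⟩
  have hn := (h.nbW hb i (by omega)).symm.trans ((congrArg nb e).trans (h.nbW hb j hj))
  have hL := (h.lenW i (by omega)).symm.trans ((congrArg len e).trans (h.lenW j hj))
  have hr := len_pos h.nR
  have hs := len_pos h.nS
  have hBb : (b = 0 ∧ 1 ≤ len B) ∨ (b = 1 ∧ len B = 0 ∧ B = .nil) := by
    by_cases hB : B = .nil
    · right
      rw [hb, hB]
      exact ⟨rfl, rfl, rfl⟩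
    · left
      rw [hb, isNil_f.2 hB]
      exact ⟨rfl, len_pos hB⟩
  have hBn : b = 1 → B = .nil := by
    intro h1
    rcases hBb with h2 | h2
    · omega
    · exact h2.2.2
  clear hb
  interval_cases j <;> interval_cases i <;> first
    | exact i0 rfl
    | exact i10 rfl
    | exact j10 rfl
    | (simp only [nb0, lenT] at hn hL
       omega)
    | skip
  all_goals first
    | exact h.n1_2 e
    | exact h.n1_11 e
    | exact h.n1_18 e
    | exact h.n2_11 e
    | exact h.n2_18 e
    | exact h.n11_18 (hBn (by simp only [nb0] at hn; omega)) e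
    | exact h.n8_12 e
    | exact h.n8_18 e
    | exact h.n12_18 e
    | exact h.n5_7 e
    | exact h.n5_9 e
    | exact h.n5_16 (hBn (by simp only [nb0] at hn; omega)) e
    | exact h.n5_17 e
    | exact h.n5_19 e
    | exact h.n7_9 e
    | exact h.n7_16 e
    | exact h.n7_17 e
    | exact h.n7_19 e
    | exact h.n9_17 e
    | exact h.n9_19 e
    | exact h.n17_19 e
    | exact h.n3_14 e
    | exact h.n4_6 e
    | exact h.n4_13 e
    | exact h.n4_14 e
    | exact h.n4_15 e
    | exact h.n4_16 e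
    | exact h.n6_13 e
    | exact h.n6_14 e
    | exact h.n6_15 e
    | exact h.n13_14 e
    | exact h.n13_15 e
    | exact h.n14_16 e
    | exact h.n15_16 e

end

end BW

end Pool.OddHC
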